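import Pool.Agent.Q205.AGMNorm

open Finset Matrix
open scoped Matrix.Norms.L2Operator ComplexOrder

set_option linter.unusedSectionVars false

namespace Pool.Agent.Q205.AGM

noncomputable section

variable {S J X : Type*} [Fintype S] [DecidableEq S] [Fintype X] [DecidableEq X] {d : ℕ}

/-- block diagonal matrix whose blocks are the rank one matrices `w wᵀ` -/
def A (e : Fin d ≃ S × X) (W : S → J → X → ℝ) (j : J) : Matrix (Fin d) (Fin d) ℂ :=
  Matrix.of fun a b => if (e a).1 = (e b).1 then
    ((W (e a).1 j (e a).2 * W (e a).1 j (e b).2 : ℝ) : ℂ) else 0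

def G (W : S → J → X → ℝ) (σ : S) (j j' : J) : ℝ := ∑ x, W σ j x * W σ j' x

theorem A_posSemidef (e : Fin d ≃ S × X) (W : S → J → X → ℝ) (j : J) :
    (A e W j).PosSemidef := by
  let B : Matrix (Fin d) S ℂ := Matrix.of fun a σ => if (e a).1 = σ then
    ((W (e a).1 j (e a).2 : ℝ) : ℂ) else 0
  have h : A e W j = B * Bᴴ := by
    ext a b
    simp only [A, B, Matrix.mul_apply, Matrix.conjTranspose_apply, Matrix.of_apply]
    rw [Finset.sum_eq_single (e a).1]
    · by_cases h : (e a).1 = (e b).1
      · simp [h]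
      · have h' : ¬ (e b).1 = (e a).1 := fun h' => h h'.symm
        simp [h, h']
    · intro σ _ hσ
      rw [if_neg (Ne.symm hσ), zero_mul]
    · intro h; exact absurd (Finset.mem_univ _) h
  rw [h]
  exact posSemidef_self_mul_conjTranspose B

theorem A_real (e : Fin d ≃ S × X) (W : S → J → X → ℝ) (j : J) (a b : Fin d) :
    (A e W j a b).im = 0 := by
  simp only [A, Matrix.of_apply]
  split_ifs
  · exact Complex.ofReal_im _
  · simp

theorem sum_e {E : Type*} [AddCommMonoid E] (e : Fin d ≃ S × X) (F : S → X → E) :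
    ∑ c, F (e c).1 (e c).2 = ∑ σ, ∑ x, F σ x := by
  rw [← Fintype.sum_prod_type', ← e.sum_comp]

theorem prod_entry (e : Fin d ≃ S × X) (W : S → J → X → ℝ) :
    ∀ (r : ℕ) (s : Fin (r + 1) → J) (a b : Fin d),
      (List.ofFn fun k => A e W (s k)).prod a b = if (e a).1 = (e b).1 then
        ((W (e a).1 (s 0) (e a).2 * (∏ k : Fin r, G W (e a).1 (s k.castSucc) (s k.succ)) *
          W (e a).1 (s (Fin.last r)) (e b).2 : ℝ) : ℂ) else 0 := by
  intro r
  induction r with
  | zero =>
    intro s a b
    simp [A]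
  | succ r ih =>
    intro s a b
    rw [List.ofFn_succ, List.prod_cons, Matrix.mul_apply]
    obtain ⟨F, hF⟩ : ∃ F : S → X → ℂ, ∀ σ x, F σ x = if σ = (e a).1 then (if (e a).1 = (e b).1 then
          ((W (e a).1 (s 0) (e a).2 * W (e a).1 (s 0) x * (W (e a).1 (s 1) x *
            (∏ k : Fin r, G W (e a).1 (s k.castSucc.succ) (s k.succ.succ)) *
            W (e a).1 (s (Fin.last (r + 1))) (e b).2) : ℝ) : ℂ) else 0) else 0 :=
      ⟨_, fun _ _ => rfl⟩
    have h1 : ∀ c, A e W (s 0) a c * (List.ofFn fun k : Fin (r + 1) => A e W (s k.succ)).prod c b =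
        F (e c).1 (e c).2 := by
      intro c
      rw [ih (fun k => s k.succ) c b, hF]
      simp only [A, Matrix.of_apply]
      by_cases hc : (e c).1 = (e a).1
      · rw [if_pos hc, if_pos hc.symm, hc]
        by_cases hb : (e a).1 = (e b).1
        · rw [if_pos hb, if_pos hb]
          push_cast
          rfl
        · rw [if_neg hb, if_neg hb, mul_zero]
      · rw [if_neg hc, if_neg (Ne.symm hc), zero_mul]
    rw [Finset.sum_congr rfl fun c _ => h1 c, sum_e e]
    rw [Finset.sum_eq_single (e a).1]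
    · simp only [hF, if_true]
      by_cases hb : (e a).1 = (e b).1
      · simp only [hb, if_true]
        rw [← Complex.ofReal_sum]
        congr 1
        rw [Fin.prod_univ_succ]
        have h2 : G W (e b).1 (s (Fin.castSucc 0)) (s (Fin.succ 0)) =
            ∑ x, W (e b).1 (s 0) x * W (e b).1 (s 1) x := rfl
        rw [h2, Finset.sum_mul, Finset.mul_sum, Finset.sum_mul]
        refine Finset.sum_congr rfl fun x _ => ?_
        have h3 : (∏ i : Fin r, G W (e b).1 (s i.succ.castSucc) (s i.succ.succ)) =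
            ∏ k : Fin r, G W (e b).1 (s k.castSucc.succ) (s k.succ.succ) := rfl
        rw [h3]
        ring
      · simp [hb]
    · intro σ _ hσ
      simp [hF, hσ]
    · intro h; exact absurd (Finset.mem_univ _) h

theorem norm_prod_le (e : Fin d ≃ S × X) (W : S → J → X → ℝ) (r : ℕ) (s : Fin (r + 1) → J)
    (K : ℝ) (hK : 0 ≤ K)
    (h : ∀ σ, (∏ k : Fin r, G W σ (s k.castSucc) (s k.succ)) ^ 2 *
      (G W σ (s 0) (s 0) * G W σ (s (Fin.last r)) (s (Fin.last r))) ≤ K ^ 2) :
    ‖(List.ofFn fun k => A e W (s k)).prod‖ ≤ K := by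
  refine norm_le_of_block (fun a => (e a).1) _ K hK ?_ ?_
  · intro x y hxy
    rw [prod_entry, if_neg hxy]
  · intro σ
    obtain ⟨F, hF⟩ : ∃ F : S → X → ℝ, ∀ τ x, F τ x = if τ = σ then (W σ (s 0) x) ^ 2 *
          ((∏ k : Fin r, G W σ (s k.castSucc) (s k.succ)) ^ 2 *
            G W σ (s (Fin.last r)) (s (Fin.last r))) else 0 := ⟨_, fun _ _ => rfl⟩
    have h1 : ∀ a, (if (e a).1 = σ then
        ∑ b, ‖(List.ofFn fun k => A e W (s k)).prod a b‖ ^ 2 else 0) =
        F (e a).1 (e a).2 := by
      intro a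
      rw [hF]
      by_cases ha : (e a).1 = σ
      · simp only [ha, if_true]
        obtain ⟨F', hF'⟩ : ∃ F' : S → X → ℝ, ∀ τ y, F' τ y = if τ = σ then
              (W σ (s 0) (e a).2) ^ 2 * (∏ k : Fin r, G W σ (s k.castSucc) (s k.succ)) ^ 2 *
              (W σ (s (Fin.last r)) y) ^ 2 else 0 := ⟨_, fun _ _ => rfl⟩
        have h2 : ∀ b, ‖(List.ofFn fun k => A e W (s k)).prod a b‖ ^ 2 =
            F' (e b).1 (e b).2 := by
          intro b
          rw [hF', prod_entry, ha]
          by_cases hb : (e b).1 = σ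
          · rw [if_pos hb.symm, if_pos hb, Complex.norm_real, Real.norm_eq_abs, sq_abs]
            ring
          · rw [if_neg (Ne.symm hb), if_neg hb]
            simp
        rw [Finset.sum_congr rfl fun b _ => h2 b, sum_e e, Finset.sum_eq_single σ]
        · simp only [hF', if_true]
          rw [← Finset.mul_sum, mul_assoc]
          congr 2
          unfold G
          refine Finset.sum_congr rfl fun y _ => ?_
          ring
        · intro τ _ hτ
          simp [hF', hτ]
        · intro h; exact absurd (Finset.mem_univ _) h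
      · simp [ha]
    rw [Finset.sum_congr rfl fun a _ => h1 a, sum_e e, Finset.sum_eq_single σ]
    · simp only [hF, if_true]
      rw [← Finset.sum_mul]
      have h3 : ∑ x, (W σ (s 0) x) ^ 2 = G W σ (s 0) (s 0) := by
        unfold G
        refine Finset.sum_congr rfl fun y _ => ?_
        ring
      rw [h3]
      calc _ = (∏ k : Fin r, G W σ (s k.castSucc) (s k.succ)) ^ 2 *
        (G W σ (s 0) (s 0) * G W σ (s (Fin.last r)) (s (Fin.last r))) := by ring
        _ ≤ K ^ 2 := h σ
    · intro τ _ hτ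
      simp [hF, hτ]
    · intro h; exact absurd (Finset.mem_univ _) h

theorem le_norm_prod (e : Fin d ≃ S × X) (W : S → J → X → ℝ) (r : ℕ) (s : Fin (r + 1) → J)
    (σ : S) (x y : X) :
    |W σ (s 0) x * (∏ k : Fin r, G W σ (s k.castSucc) (s k.succ)) * W σ (s (Fin.last r)) y| ≤
    ‖(List.ofFn fun k => A e W (s k)).prod‖ := by
  refine le_trans (le_of_eq ?_) (norm_entry_le _ (e.symm (σ, x)) (e.symm (σ, y)))
  rw [prod_entry]
  simp only [Equiv.apply_symm_apply, if_true]
  rw [Complex.norm_real, Real.norm_eq_abs]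

end

end Pool.Agent.Q205.AGM
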