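import Pool.Agent.Q205.AGMBlocks

open Finset

namespace Pool.Agent.Q205.AGM

noncomputable section

/-- coordinates of the chain vectors -/
def z (i x : ℕ) : ℝ := if x + 1 = i ∨ x = i then 1 else 0

/-- weights -/
def u (M : ℕ) (θ : ℝ) (i : ℕ) : ℝ := if i = 0 ∨ i = M then 1 else θ

def g (M i i' : ℕ) : ℝ := ∑ x : Fin M, z i x * z i' x

def W (M n : ℕ) (θ : ℝ) (σ : Fin (M + 1) ↪ Fin n) (j : Fin n) (x : Fin M) : ℝ :=
  ∑ i : Fin (M + 1), if σ i = j then u M θ i * z i x else 0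

theorem g_eq_card (M i i' : ℕ) : g M i i' =
    ((univ.filter fun x : Fin M => ((x : ℕ) + 1 = i ∨ (x : ℕ) = i) ∧
      ((x : ℕ) + 1 = i' ∨ (x : ℕ) = i')).card : ℝ) := by
  rw [Finset.card_filter]
  push_cast
  unfold g z
  refine Finset.sum_congr rfl fun x _ => ?_
  split_ifs <;> simp_all

theorem g_nonneg (M i i' : ℕ) : 0 ≤ g M i i' := by
  rw [g_eq_card]; positivity

theorem g_le_two (M i i' : ℕ) : g M i i' ≤ 2 := by
  rw [g_eq_card]
  have : (univ.filter fun x : Fin M => ((x : ℕ) + 1 = i ∨ (x : ℕ) = i) ∧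
      ((x : ℕ) + 1 = i' ∨ (x : ℕ) = i')).card ≤ ({i - 1, i} : Finset ℕ).card := by
    apply Finset.card_le_card_of_injOn (fun x : Fin M => (x : ℕ))
    · intro x hx
      simp at hx ⊢
      omega
    · intro x _ y _ h
      exact Fin.ext h
  have h2 : ({i - 1, i} : Finset ℕ).card ≤ 2 := Finset.card_le_two
  exact_mod_cast this.trans h2

theorem g_le_one (M i i' : ℕ) (h : i ≠ i' ∨ i = 0 ∨ i = M) : g M i i' ≤ 1 := by
  rw [g_eq_card]
  have : (univ.filter fun x : Fin M => ((x : ℕ) + 1 = i ∨ (x : ℕ) = i) ∧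
      ((x : ℕ) + 1 = i' ∨ (x : ℕ) = i')).card ≤ 1 := by
    rw [Finset.card_le_one]
    intro a ha b hb
    simp at ha hb
    have := a.2
    have := b.2
    apply Fin.ext
    omega
  exact_mod_cast this

theorem g_eq_zero (M i i' : ℕ) (h : ¬ (i ≤ i' + 1 ∧ i' ≤ i + 1)) : g M i i' = 0 := by
  rw [g_eq_card]
  rw [Nat.cast_eq_zero, Finset.card_eq_zero, Finset.filter_eq_empty_iff]
  intro x _
  omega

theorem g_succ (M k : ℕ) (h : k < M) : g M k (k + 1) = 1 := by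
  rw [g_eq_card]
  have : (univ.filter fun x : Fin M => ((x : ℕ) + 1 = k ∨ (x : ℕ) = k) ∧
      ((x : ℕ) + 1 = k + 1 ∨ (x : ℕ) = k + 1)) = {⟨k, h⟩} := by
    ext x
    simp [Fin.ext_iff]
    omega
  rw [this]
  simp

theorem W_apply (M n : ℕ) (θ : ℝ) (σ : Fin (M + 1) ↪ Fin n) (i : Fin (M + 1)) (x : Fin M) :
    W M n θ σ (σ i) x = u M θ i * z i x := by
  unfold W
  rw [Finset.sum_eq_single i]
  · simp
  · intro b _ hb
    rw [if_neg]
    intro h
    exact hb (σ.injective h)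
  · intro h; exact absurd (Finset.mem_univ _) h

theorem W_eq_zero (M n : ℕ) (θ : ℝ) (σ : Fin (M + 1) ↪ Fin n) (j : Fin n)
    (h : ∀ i, σ i ≠ j) (x : Fin M) : W M n θ σ j x = 0 := by
  unfold W
  exact Finset.sum_eq_zero fun i _ => if_neg (h i)

theorem G_apply (M n : ℕ) (θ : ℝ) (σ : Fin (M + 1) ↪ Fin n) (i i' : Fin (M + 1)) :
    G (W M n θ) σ (σ i) (σ i') = u M θ i * u M θ i' * g M i i' := by
  unfold G g
  rw [Finset.mul_sum]
  refine Finset.sum_congr rfl fun x _ => ?_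
  rw [W_apply, W_apply]
  ring

theorem G_eq_zero_left (M n : ℕ) (θ : ℝ) (σ : Fin (M + 1) ↪ Fin n) (j j' : Fin n)
    (h : ∀ i, σ i ≠ j) : G (W M n θ) σ j j' = 0 := by
  unfold G
  exact Finset.sum_eq_zero fun x _ => by rw [W_eq_zero M n θ σ j h]; simp

theorem G_eq_zero_right (M n : ℕ) (θ : ℝ) (σ : Fin (M + 1) ↪ Fin n) (j j' : Fin n)
    (h : ∀ i, σ i ≠ j') : G (W M n θ) σ j j' = 0 := by
  unfold G
  exact Finset.sum_eq_zero fun x _ => by rw [W_eq_zero M n θ σ j' h]; simp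

/-- the squared norm of the product on the block `σ` -/
def val (M n : ℕ) (θ : ℝ) (σ : Fin (M + 1) ↪ Fin n) (s : Fin (M + 1) → Fin n) : ℝ :=
  (∏ k : Fin M, G (W M n θ) σ (s k.castSucc) (s k.succ)) ^ 2 *
      (G (W M n θ) σ (s 0) (s 0) * G (W M n θ) σ (s (Fin.last M)) (s (Fin.last M)))

theorem val_eq (M n : ℕ) (θ : ℝ) (σ : Fin (M + 1) ↪ Fin n) (t : Fin (M + 1) → Fin (M + 1)) :
    val M n θ σ (fun k => σ (t k)) = (∏ k, u M θ (t k)) ^ 4 *
      (∏ k : Fin M, g M (t k.castSucc) (t k.succ)) ^ 2 *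
      (g M (t 0) (t 0) * g M (t (Fin.last M)) (t (Fin.last M))) := by
  unfold val
  simp only [G_apply]
  rw [Finset.prod_mul_distrib, Finset.prod_mul_distrib]
  have h1 := Fin.prod_univ_castSucc (fun k : Fin (M + 1) => u M θ (t k))
  have h2 := Fin.prod_univ_succ (fun k : Fin (M + 1) => u M θ (t k))
  have h3 : (∏ k, u M θ (t k)) ^ 4 =
      ((∏ k : Fin M, u M θ (t k.castSucc)) * u M θ (t (Fin.last M))) ^ 2 *
      (u M θ (t 0) * ∏ k : Fin M, u M θ (t k.succ)) ^ 2 := by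
    rw [← h1, ← h2]; ring
  rw [h3]
  ring

theorem val_eq_zero (M n : ℕ) (θ : ℝ) (σ : Fin (M + 1) ↪ Fin n) (s : Fin (M + 1) → Fin n)
    (k : Fin (M + 1)) (h : ∀ i, σ i ≠ s k) : val M n θ σ s = 0 := by
  unfold val
  rcases Fin.eq_zero_or_eq_succ k with hk | ⟨k', hk⟩
  · subst hk
    rw [G_eq_zero_left M n θ σ (s 0) (s 0) h]
    ring
  · have : ∏ k : Fin M, G (W M n θ) σ (s k.castSucc) (s k.succ) = 0 := by
      apply Finset.prod_eq_zero (Finset.mem_univ k')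
      exact G_eq_zero_right M n θ σ _ _ (by rw [← hk]; exact h)
    rw [this]
    ring

theorem u_nonneg (M : ℕ) (θ : ℝ) (h0 : 0 ≤ θ) (i : ℕ) : 0 ≤ u M θ i := by
  unfold u; split_ifs <;> linarith

theorem u_le_one (M : ℕ) (θ : ℝ) (h1 : θ ≤ 1) (i : ℕ) : u M θ i ≤ 1 := by
  unfold u; split_ifs <;> linarith

theorem prod_g_nonneg (M : ℕ) (t : Fin (M + 1) → Fin (M + 1)) :
    0 ≤ ∏ k : Fin M, g M (t k.castSucc) (t k.succ) :=
  Finset.prod_nonneg fun _ _ => g_nonneg _ _ _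

theorem prod_g_le (M : ℕ) (t : Fin (M + 1) → Fin (M + 1)) :
    ∏ k : Fin M, g M (t k.castSucc) (t k.succ) ≤ 2 ^ M := by
  calc _ ≤ ∏ _k : Fin M, (2 : ℝ) :=
        Finset.prod_le_prod (fun _ _ => g_nonneg _ _ _) fun _ _ => g_le_two _ _ _
    _ = 2 ^ M := by simp

theorem val_crude (M n : ℕ) (θ : ℝ) (h0 : 0 ≤ θ) (h1 : θ ≤ 1) (σ : Fin (M + 1) ↪ Fin n)
    (t : Fin (M + 1) → Fin (M + 1)) (r : ℕ)
    (hr : r ≤ (univ.filter fun k => ¬ ((t k : ℕ) = 0 ∨ (t k : ℕ) = M)).card) :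
    val M n θ σ (fun k => σ (t k)) ≤ (θ ^ (2 * r) * 2 ^ (M + 1)) ^ 2 := by
  rw [val_eq]
  have hu : ∏ k, u M θ (t k) ≤ θ ^ r := by
    unfold u
    rw [Finset.prod_ite]
    simp only [prod_const, one_pow, one_mul]
    exact pow_le_pow_of_le_one h0 h1 hr
  have hu0 : 0 ≤ ∏ k, u M θ (t k) := Finset.prod_nonneg fun _ _ => u_nonneg _ _ h0 _
  have e1 : (∏ k, u M θ (t k)) ^ 4 ≤ (θ ^ r) ^ 4 := pow_le_pow_left₀ hu0 hu 4
  have e2 : (∏ k : Fin M, g M (t k.castSucc) (t k.succ)) ^ 2 ≤ (2 ^ M) ^ 2 :=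
    pow_le_pow_left₀ (prod_g_nonneg M t) (prod_g_le M t) 2
  have e3 : g M (t 0) (t 0) * g M (t (Fin.last M)) (t (Fin.last M)) ≤ 2 * 2 :=
    mul_le_mul (g_le_two _ _ _) (g_le_two _ _ _) (g_nonneg _ _ _) (by norm_num)
  calc _ ≤ (θ ^ r) ^ 4 * (2 ^ M) ^ 2 * (2 * 2) := by
        apply mul_le_mul (mul_le_mul e1 e2 (by positivity) (by positivity)) e3
          (mul_nonneg (g_nonneg _ _ _) (g_nonneg _ _ _)) (by positivity)
    _ = _ := by rw [pow_succ, pow_mul]; ring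

theorem val_fine (M n : ℕ) (θ : ℝ) (h0 : 0 ≤ θ) (h1 : θ ≤ 1) (σ : Fin (M + 1) ↪ Fin n)
    (t : Fin (M + 1) → Fin (M + 1)) (r : ℕ)
    (hr : r ≤ (univ.filter fun k => ¬ ((t k : ℕ) = 0 ∨ (t k : ℕ) = M)).card)
    (hg : ∀ k : Fin M, g M (t k.castSucc) (t k.succ) ≤ 1)
    (he : g M (t 0) (t 0) ≤ 1 ∨ g M (t (Fin.last M)) (t (Fin.last M)) ≤ 1) :
    val M n θ σ (fun k => σ (t k)) ≤ (71 / 50 * θ ^ (2 * r)) ^ 2 := by
  rw [val_eq]
  have hu : ∏ k, u M θ (t k) ≤ θ ^ r := by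
    unfold u
    rw [Finset.prod_ite]
    simp only [prod_const, one_pow, one_mul]
    exact pow_le_pow_of_le_one h0 h1 hr
  have hu0 : 0 ≤ ∏ k, u M θ (t k) := Finset.prod_nonneg fun _ _ => u_nonneg _ _ h0 _
  have e1 : (∏ k, u M θ (t k)) ^ 4 ≤ (θ ^ r) ^ 4 := pow_le_pow_left₀ hu0 hu 4
  have e2 : (∏ k : Fin M, g M (t k.castSucc) (t k.succ)) ^ 2 ≤ 1 := by
    have : ∏ k : Fin M, g M (t k.castSucc) (t k.succ) ≤ 1 :=
      Finset.prod_le_one (fun _ _ => g_nonneg _ _ _) fun k _ => hg k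
    exact pow_le_one₀ (prod_g_nonneg M t) this
  have e3 : g M (t 0) (t 0) * g M (t (Fin.last M)) (t (Fin.last M)) ≤ 2 := by
    rcases he with he | he
    · calc _ ≤ 1 * 2 := mul_le_mul he (g_le_two _ _ _) (g_nonneg _ _ _) (by norm_num)
        _ = 2 := by norm_num
    · calc _ ≤ 2 * 1 := mul_le_mul (g_le_two _ _ _) he (g_nonneg _ _ _) (by norm_num)
        _ = 2 := by norm_num
  have hθ : 0 ≤ (θ ^ r) ^ 4 := by positivity
  calc _ ≤ (θ ^ r) ^ 4 * 1 * 2 := by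
        apply mul_le_mul (mul_le_mul e1 e2 (by positivity) (by positivity)) e3
          (mul_nonneg (g_nonneg _ _ _) (g_nonneg _ _ _)) (by positivity)
    _ ≤ (71 / 50) ^ 2 * (θ ^ r) ^ 4 := by nlinarith
    _ = _ := by ring

/-- discrete intermediate values -/
theorem ivt (T : ℕ → ℕ) (M v : ℕ) (hT : ∀ k < M, T (k + 1) ≤ T k + 1 ∧ T k ≤ T (k + 1) + 1)
    (a b : ℕ) (ha : a ≤ M) (hb : b ≤ M) (hav : T a ≤ v) (hbv : v ≤ T b) :
    ∃ k ≤ M, T k = v := by
  by_contra hne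
  push Not at hne
  have h : ∀ k ≤ M, (T k < v ↔ T 0 < v) := by
    intro k
    induction k with
    | zero => intro _; rfl
    | succ k ih =>
      intro hk
      have h1 := ih (by omega)
      have h2 := hT k (by omega)
      have h3 := hne k (by omega)
      have h4 := hne (k + 1) hk
      constructor
      · intro h; exact h1.1 (by omega)
      · intro h; have := h1.2 h; omega
  have h1 := h a ha
  have h2 := h b hb
  have h3 := hne a ha
  have h4 := hne b hb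
  omega

/-- positions of a doubled endpoint -/
theorem comb (T : ℕ → ℕ) (M : ℕ) (hM : 3 ≤ M)
    (hT : ∀ k < M, T (k + 1) ≤ T k + 1 ∧ T k ≤ T (k + 1) + 1)
    (hle : ∀ k ≤ M, T k ≤ M) (i j : ℕ) (hij : i < j) (hj : j ≤ M) (h : T i = T j)
    (hinj : ∀ a ≤ M, ∀ b ≤ M, a ≠ j → b ≠ j → T a = T b → a = b)
    (hv : T i = 0 ∨ T i = M) : (i = 0 ∧ j = 1) ∨ (i + 1 = M ∧ j = M) := by
  obtain ⟨w, hw⟩ : ∃ w, ∀ x ≤ M, x ≤ T i + 1 → T i ≤ x + 1 → x ≠ T i → x = w := by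
    rcases hv with hv | hv
    · exact ⟨1, by intro x _ _ _ _; omega⟩
    · exact ⟨M - 1, by intro x _ _ _ _; omega⟩
  have nb : ∀ a ≤ M, ∀ b ≤ M, (a + 1 = b ∨ b + 1 = a) → T a = T i → b ≠ j → b ≠ i → T b = w := by
    intro a ha b hb hab hTa hbj hbi
    have hne : T b ≠ T i := fun h' => hbi (hinj b hb i (by omega) hbj (by omega) h')
    rcases hab with hab | hab
    · have := hT a (by omega)
      rw [hab] at this
      exact hw _ (hle b hb) (by omega) (by omega) hne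
    · have := hT b (by omega)
      rw [hab] at this
      exact hw _ (hle b hb) (by omega) (by omega) hne
  by_cases hj2 : i + 2 ≤ j
  · exfalso
    have a1 := nb i (by omega) (i + 1) (by omega) (Or.inl rfl) rfl (by omega) (by omega)
    have a2 := nb j hj (j - 1) (by omega) (Or.inr (by omega)) h.symm (by omega) (by omega)
    have a3 := hinj (i + 1) (by omega) (j - 1) (by omega) (by omega) (by omega) (a1.trans a2.symm)
    by_cases hi : 1 ≤ i
    · have a4 := nb i (by omega) (i - 1) (by omega) (Or.inr (by omega)) rfl (by omega) (by omega)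
      have a5 := hinj (i + 1) (by omega) (i - 1) (by omega) (by omega) (by omega) (a1.trans a4.symm)
      omega
    · have a4 := nb j (by omega) (j + 1) (by omega) (Or.inl rfl) h.symm (by omega) (by omega)
      have a5 := hinj (i + 1) (by omega) (j + 1) (by omega) (by omega) (by omega) (a1.trans a4.symm)
      omega
  · by_contra hcon
    have a1 := nb i (by omega) (i - 1) (by omega) (Or.inr (by omega)) rfl (by omega) (by omega)
    have a2 := nb j (by omega) (j + 1) (by omega) (Or.inl rfl) h.symm (by omega) (by omega)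
    have a5 := hinj (i - 1) (by omega) (j + 1) (by omega) (by omega) (by omega) (a1.trans a2.symm)
    omega

end

end Pool.Agent.Q205.AGM
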