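import Pool.Agent.Q205.AGMChain

open Finset

namespace Pool.Agent.Q205.AGM

noncomputable section

/-- exactly one coincidence, at the positions `i < j` -/
def OC {M : ℕ} {α : Type*} (s : Fin (M + 1) → α) (i j : Fin (M + 1)) : Prop :=
  i < j ∧ s i = s j ∧ ∀ a b, a ≠ j → b ≠ j → s a = s b → a = b

theorem ends (M : ℕ) (t : Fin (M + 1) → Fin (M + 1))
    (hw : ∀ k : Fin M, (t k.castSucc : ℕ) ≤ (t k.succ : ℕ) + 1 ∧
      (t k.succ : ℕ) ≤ (t k.castSucc : ℕ) + 1) (i j : Fin (M + 1)) (hoc : OC t i j) :
    (univ.filter fun k => ((t k : ℕ) = 0 ∨ (t k : ℕ) = M)).card ≤ 2 ∧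
    (2 ≤ (univ.filter fun k => ((t k : ℕ) = 0 ∨ (t k : ℕ) = M)).card →
      ((t i : ℕ) = 0 ∨ (t i : ℕ) = M)) := by
  obtain ⟨hij, hs, hinj⟩ := hoc
  have hnot : (∀ k, (t k : ℕ) ≠ 0) ∨ (∀ k, (t k : ℕ) ≠ M) := by
    by_contra hcon
    push Not at hcon
    obtain ⟨⟨a, ha⟩, ⟨b, hb⟩⟩ := hcon
    have hsurj : Function.Surjective t := by
      intro v
      have := ivt (fun k => if h : k < M + 1 then (t ⟨k, h⟩ : ℕ) else 0) M v (by
        intro k hk
        have h1 := hw ⟨k, hk⟩
        simp only [Fin.castSucc_mk, Fin.succ_mk] at h1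
        rw [dif_pos (by omega : k + 1 < M + 1), dif_pos (by omega : k < M + 1)]
        exact ⟨h1.2, h1.1⟩) a b (by omega) (by omega)
        (by rw [dif_pos a.2]; simp [ha]) (by
          rw [dif_pos b.2]; simp only [Fin.eta, hb]; omega)
      obtain ⟨k, hk, hk'⟩ := this
      rw [dif_pos (by omega : k < M + 1)] at hk'
      exact ⟨⟨k, by omega⟩, Fin.ext hk'⟩
    have hin : Function.Injective t := Finite.injective_iff_surjective.2 hsurj
    exact absurd (hin hs) (ne_of_lt hij)
  have huniq : ∀ a b, ((t a : ℕ) = 0 ∨ (t a : ℕ) = M) → ((t b : ℕ) = 0 ∨ (t b : ℕ) = M) →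
      t a = t b := by
    intro a b ha hb
    apply Fin.ext
    rcases hnot with h | h
    · have := h a
      have := h b
      omega
    · have := h a
      have := h b
      omega
  have hcard : ((univ.filter fun k => ((t k : ℕ) = 0 ∨ (t k : ℕ) = M)).erase j).card ≤ 1 := by
    rw [Finset.card_le_one]
    intro a ha b hb
    simp only [mem_erase, mem_filter, mem_univ, true_and] at ha hb
    exact hinj a b ha.1 hb.1 (huniq a b ha.2 hb.2)
  constructor
  · have := Finset.pred_card_le_card_erase
      (s := univ.filter fun k => ((t k : ℕ) = 0 ∨ (t k : ℕ) = M)) (a := j)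
    omega
  · intro h2
    rw [hs]
    by_contra hj
    have : j ∉ (univ.filter fun k => ((t k : ℕ) = 0 ∨ (t k : ℕ) = M)) := by
      simpa using hj
    rw [Finset.erase_eq_of_notMem this] at hcard
    omega

theorem val_OC (M n : ℕ) (hM : 3 ≤ M) (θ : ℝ) (h0 : 0 ≤ θ) (h1 : θ ≤ 1)
    (hθ : θ ^ 2 * 2 ^ (M + 1) ≤ 1 / 20) (σ : Fin (M + 1) ↪ Fin n) (s : Fin (M + 1) → Fin n)
    (i j : Fin (M + 1)) (hoc : OC s i j) :
    val M n θ σ s ≤ (71 / 50 * θ ^ (2 * (M - 1))) ^ 2 ∧
    (¬ (((i : ℕ) = 0 ∧ (j : ℕ) = 1) ∨ ((i : ℕ) + 1 = M ∧ (j : ℕ) = M)) →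
      val M n θ σ s ≤ (1 / 20 * θ ^ (2 * (M - 1))) ^ 2) := by
  by_cases hr : ∀ k, ∃ i, σ i = s k
  swap
  · push Not at hr
    obtain ⟨k, hk⟩ := hr
    rw [val_eq_zero M n θ σ s k hk]
    exact ⟨by positivity, fun _ => by positivity⟩
  choose t ht using hr
  have hst : s = fun k => σ (t k) := funext fun k => (ht k).symm
  have hoct : OC t i j := by
    obtain ⟨hij, hs, hinj⟩ := hoc
    refine ⟨hij, σ.injective (by rw [ht, ht, hs]), fun a b ha hb hab => hinj a b ha hb ?_⟩
    rw [← ht, ← ht, hab]
  rw [hst]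
  by_cases hw : ∀ k : Fin M, (t k.castSucc : ℕ) ≤ (t k.succ : ℕ) + 1 ∧
      (t k.succ : ℕ) ≤ (t k.castSucc : ℕ) + 1
  swap
  · push Not at hw
    obtain ⟨k, hk⟩ := hw
    have : val M n θ σ (fun k => σ (t k)) = 0 := by
      rw [val_eq, Finset.prod_eq_zero (Finset.mem_univ k) (g_eq_zero _ _ _ (by
        intro h
        have := hk h.1
        omega))]
      ring
    rw [this]
    exact ⟨by positivity, fun _ => by positivity⟩
  obtain ⟨hE1, hE2⟩ := ends M t hw i j hoct
  have hcardsum := Finset.card_filter_add_card_filter_not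
    (s := (univ : Finset (Fin (M + 1)))) (fun k => ((t k : ℕ) = 0 ∨ (t k : ℕ) = M))
  rw [Finset.card_univ, Fintype.card_fin] at hcardsum
  by_cases hE : (univ.filter fun k => ((t k : ℕ) = 0 ∨ (t k : ℕ) = M)).card ≤ 1
  · have hv := val_crude M n θ h0 h1 σ t M (by omega)
    have hle : θ ^ (2 * M) * 2 ^ (M + 1) ≤ 1 / 20 * θ ^ (2 * (M - 1)) := by
      have : θ ^ (2 * M) = θ ^ (2 * (M - 1)) * θ ^ 2 := by
        rw [← pow_add]; congr 1; omega
      rw [this, mul_assoc, mul_comm (1 / 20 : ℝ)]
      exact mul_le_mul_of_nonneg_left hθ (by positivity)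
    have hv2 : val M n θ σ (fun k => σ (t k)) ≤ (1 / 20 * θ ^ (2 * (M - 1))) ^ 2 :=
      hv.trans (pow_le_pow_left₀ (by positivity) hle 2)
    refine ⟨hv2.trans (pow_le_pow_left₀ (by positivity) ?_ 2), fun _ => hv2⟩
    exact mul_le_mul_of_nonneg_right (by norm_num) (by positivity)
  · have hv := hE2 (by omega)
    obtain ⟨hij, hs, hinj⟩ := hoct
    have hpos := comb (fun k => if h : k < M + 1 then (t ⟨k, h⟩ : ℕ) else 0) M hM (by
        intro k hk
        have h1 := hw ⟨k, hk⟩
        simp only [Fin.castSucc_mk, Fin.succ_mk] at h1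
        rw [dif_pos (by omega : k + 1 < M + 1), dif_pos (by omega : k < M + 1)]
        exact ⟨h1.2, h1.1⟩) (by
        intro k hk
        rw [dif_pos (by omega : k < M + 1)]
        omega) i j hij (by omega) (by
        rw [dif_pos i.2, dif_pos j.2]
        simp [hs]) (by
        intro a ha b hb haj hbj hab
        rw [dif_pos (by omega : a < M + 1), dif_pos (by omega : b < M + 1)] at hab
        have := hinj ⟨a, by omega⟩ ⟨b, by omega⟩ (by
          intro h; exact haj (by rw [← h])) (by
          intro h; exact hbj (by rw [← h])) (Fin.ext hab)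
        simpa using this) (by
        rw [dif_pos i.2]
        simpa using hv)
    refine ⟨?_, fun hcon => absurd hpos hcon⟩
    refine val_fine M n θ h0 h1 σ t (M - 1) (by omega) ?_ ?_
    · intro k
      apply g_le_one
      by_cases hk : (t k.castSucc : ℕ) = (t k.succ : ℕ)
      · right
        by_cases hk1 : k.castSucc = j
        · rw [hk1, ← hs]; exact hv
        · by_cases hk2 : k.succ = j
          · rw [hk, hk2, ← hs]; exact hv
          · have := hinj _ _ hk1 hk2 (Fin.ext hk)
            exact absurd this (ne_of_lt (Fin.castSucc_lt_succ))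
      · left; exact hk
    · rcases hpos with h | h
      · left
        apply g_le_one
        right
        have : (0 : Fin (M + 1)) = i := Fin.ext (by simp [h.1])
        rw [this]; exact hv
      · right
        apply g_le_one
        right
        have : Fin.last M = j := Fin.ext (by simp [h.2])
        rw [this, ← hs]; exact hv

theorem card_eq_le (M n : ℕ) (i j : Fin (M + 1)) (hij : i ≠ j) :
    (univ.filter fun s : Fin (M + 1) → Fin n => s i = s j).card ≤ n ^ M := by
  have h : (univ : Finset (Fin M → Fin n)).card = n ^ M := by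
    rw [Finset.card_univ, Fintype.card_fun]
    simp
  rw [← h]
  apply Finset.card_le_card_of_injOn (fun s k => s (j.succAbove k))
  · intro s _; simp
  · intro s hs s' hs' hss
    simp only [coe_filter, mem_univ, true_and, Set.mem_setOf_eq] at hs hs'
    have hne : ∀ k, k ≠ j → s k = s' k := by
      intro k hk
      obtain ⟨l, hl⟩ := Fin.exists_succAbove_eq hk
      have := congrFun hss l
      simp only [hl] at this
      exact this
    funext k
    by_cases hk : k = j
    · rw [hk, ← hs, ← hs', hne i hij]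
    · exact hne k hk

open Classical in
/-- the sequences with exactly one coincidence, at the places `0` and `2` -/
theorem card_T (M n : ℕ) (hM : 3 ≤ M) : n.descFactorial M ≤
    (univ.filter fun s : Fin (M + 1) → Fin n =>
      OC s ⟨0, by omega⟩ ⟨2, by omega⟩).card := by
  have h : Fintype.card (Fin M ↪ Fin n) = n.descFactorial M := by
    rw [Fintype.card_embedding_eq]; simp
  rw [← h, ← Finset.card_univ]
  have h0 : (⟨2, by omega⟩ : Fin (M + 1)).succAbove ⟨0, by omega⟩ = ⟨0, by omega⟩ := by
    rw [Fin.succAbove_of_castSucc_lt]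
    · rfl
    · rw [Fin.lt_def]; simp
  apply Finset.card_le_card_of_injOn
    (fun f : Fin M ↪ Fin n => (⟨2, by omega⟩ : Fin (M + 1)).insertNth (f ⟨0, by omega⟩) f)
  · intro f _
    simp only [coe_filter, mem_univ, true_and, Set.mem_setOf_eq]
    refine ⟨by rw [Fin.lt_def]; simp, ?_, ?_⟩
    · rw [Fin.insertNth_apply_same]
      nth_rewrite 1 [← h0]
      rw [Fin.insertNth_apply_succAbove]
    · intro a b ha hb hab
      obtain ⟨a', rfl⟩ := Fin.exists_succAbove_eq ha
      obtain ⟨b', rfl⟩ := Fin.exists_succAbove_eq hb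
      rw [Fin.insertNth_apply_succAbove, Fin.insertNth_apply_succAbove] at hab
      rw [f.injective hab]
  · intro f _ f' _ hff
    ext k
    have := congrFun hff ((⟨2, by omega⟩ : Fin (M + 1)).succAbove k)
    simp only [Fin.insertNth_apply_succAbove] at this
    rw [this]

open Classical in
theorem card_R (M n : ℕ) (hM : 3 ≤ M) :
    (univ.filter fun s : Fin (M + 1) → Fin n =>
      ¬ Function.Injective s ∧ ¬ ∃ i j, OC s i j).card ≤ (M - 1) ^ (M + 1) * n ^ (M - 1) := by
  have h : (univ : Finset ((Fin (M + 1) → Fin (M - 1)) × (Fin (M - 1) → Fin n))).card =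
      (M - 1) ^ (M + 1) * n ^ (M - 1) := by
    rw [Finset.card_univ, Fintype.card_prod, Fintype.card_fun, Fintype.card_fun]
    simp
  rw [← h]
  refine le_trans (Finset.card_le_card ?_) (Finset.card_image_le
    (f := fun p : (Fin (M + 1) → Fin (M - 1)) × (Fin (M - 1) → Fin n) => p.2 ∘ p.1))
  intro s hs
  simp only [mem_filter, mem_univ, true_and] at hs
  obtain ⟨h1, h2⟩ := hs
  -- the image is small
  have hcard : (univ.image s).card ≤ M - 1 := by
    rw [Function.Injective] at h1
    push Not at h1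
    obtain ⟨i₀, j₀, hs0, hne0⟩ := h1
    obtain ⟨i, j, hij, hs⟩ : ∃ i j, i < j ∧ s i = s j := by
      rcases lt_or_gt_of_ne hne0 with h | h
      · exact ⟨i₀, j₀, h, hs0⟩
      · exact ⟨j₀, i₀, h, hs0.symm⟩
    have h3 : ¬ OC s i j := fun h => h2 ⟨i, j, h⟩
    unfold OC at h3
    push Not at h3
    obtain ⟨a, b, ha, hb, hab, hne⟩ := h3 hij hs
    have hsub : univ.image s ⊆ (((univ.erase j).erase b)).image s := by
      intro y hy
      rw [mem_image] at hy
      obtain ⟨k, _, rfl⟩ := hy
      rw [mem_image]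
      have key : ∀ k, k ≠ j → ∃ c ∈ (univ.erase j).erase b, s c = s k := by
        intro k hk
        by_cases hkb : k = b
        · exact ⟨a, by simp [ha, hne], by rw [hkb, hab]⟩
        · exact ⟨k, by simp [hk, hkb], rfl⟩
      by_cases hkj : k = j
      · rw [hkj, ← hs]
        exact key i (ne_of_lt hij)
      · exact key k hkj
    have hc := Finset.card_le_card hsub
    have hc2 := Finset.card_image_le (s := ((univ.erase j).erase b)) (f := s)
    have hc3 : ((univ.erase j).erase b : Finset (Fin (M + 1))).card = M - 1 := by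
      rw [Finset.card_erase_of_mem (by simp [hb]), Finset.card_erase_of_mem (mem_univ j),
        Finset.card_univ, Fintype.card_fin]
      omega
    omega
  have hcard2 : Fintype.card (univ.image s) ≤ Fintype.card (Fin (M - 1)) := by
    rw [Fintype.card_coe, Fintype.card_fin]; exact hcard
  obtain ⟨φ⟩ := Function.Embedding.nonempty_of_card_le hcard2
  haveI : Nonempty (univ.image s) := ⟨⟨s 0, by simp⟩⟩
  rw [mem_image]
  refine ⟨(fun k => φ ⟨s k, by simp⟩, fun y => (Function.invFun φ y).1), mem_univ _, ?_⟩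
  funext k
  simp only [Function.comp]
  rw [Function.leftInverse_invFun φ.injective]

end

end Pool.Agent.Q205.AGM
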