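import Pool.Agent.Q205.AGMCount

open Finset Matrix
open scoped Matrix.Norms.L2Operator ComplexOrder Nat

namespace Pool.Agent.Q205.AGM

noncomputable section

theorem prod_u_left (M' : ℕ) (θ : ℝ) : ∏ k : Fin (M' + 1), u (M' + 1) θ k = θ ^ M' := by
  rw [Fin.prod_univ_succ]
  have h : ∀ k : Fin M', u (M' + 1) θ (k.succ : Fin (M' + 1)) = θ := by
    intro k
    unfold u
    rw [if_neg]
    have := k.2
    simp only [Fin.val_succ]
    omega
  rw [Finset.prod_congr rfl fun k _ => h k]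
  simp [u]

theorem prod_u_right (M' : ℕ) (θ : ℝ) : ∏ k : Fin (M' + 1), u (M' + 1) θ ((k : ℕ) + 1) = θ ^ M' := by
  rw [Fin.prod_univ_castSucc]
  have h : ∀ k : Fin M', u (M' + 1) θ (((k.castSucc : Fin (M' + 1)) : ℕ) + 1) = θ := by
    intro k
    unfold u
    rw [if_neg]
    have := k.2
    simp only [Fin.val_castSucc]
    omega
  rw [Finset.prod_congr rfl fun k _ => h k]
  simp [u]

theorem lower {d : ℕ} (M n : ℕ) (hM : 3 ≤ M) (θ : ℝ) (h0 : 0 ≤ θ)
    (e : Fin d ≃ (Fin (M + 1) ↪ Fin n) × Fin M) (s : Fin (M + 1) → Fin n)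
    (hs : Function.Injective s) :
    θ ^ (2 * (M - 1)) ≤ ‖(List.ofFn fun k => A e (W M n θ) (s k)).prod‖ := by
  obtain ⟨M', rfl⟩ : ∃ M', M = M' + 1 := ⟨M - 1, by omega⟩
  have h := le_norm_prod e (W (M' + 1) n θ) (M' + 1) s ⟨s, hs⟩ ⟨0, by omega⟩ ⟨M', by omega⟩
  refine le_trans (le_of_eq ?_) h
  have hσ : ∀ k, s k = (⟨s, hs⟩ : Fin (M' + 1 + 1) ↪ Fin n) k := fun _ => rfl
  have h1 : W (M' + 1) n θ ⟨s, hs⟩ (s 0) ⟨0, by omega⟩ = 1 := by
    rw [hσ 0, W_apply]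
    simp [u, z]
  have h2 : W (M' + 1) n θ ⟨s, hs⟩ (s (Fin.last (M' + 1))) ⟨M', by omega⟩ = 1 := by
    rw [hσ (Fin.last _), W_apply]
    simp [u, z]
  have h3 : ∏ k : Fin (M' + 1), G (W (M' + 1) n θ) ⟨s, hs⟩ (s k.castSucc) (s k.succ) =
      θ ^ M' * θ ^ M' := by
    have h4 : ∀ k : Fin (M' + 1), G (W (M' + 1) n θ) ⟨s, hs⟩ (s k.castSucc) (s k.succ) =
        u (M' + 1) θ k * u (M' + 1) θ ((k : ℕ) + 1) := by
      intro k
      rw [hσ k.castSucc, hσ k.succ, G_apply]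
      simp only [Fin.val_castSucc, Fin.val_succ]
      rw [g_succ _ _ k.2, mul_one]
    rw [Finset.prod_congr rfl fun k _ => h4 k, Finset.prod_mul_distrib, prod_u_left, prod_u_right]
  rw [h1, h2, h3, one_mul, mul_one, abs_of_nonneg (by positivity)]
  rw [← pow_add]
  congr 1
  omega

theorem upper {d : ℕ} (M n : ℕ) (θ : ℝ) (h0 : 0 ≤ θ) (h1 : θ ≤ 1)
    (e : Fin d ≃ (Fin (M + 1) ↪ Fin n) × Fin M) (s : Fin (M + 1) → Fin n) :
    ‖(List.ofFn fun k => A e (W M n θ) (s k)).prod‖ ≤ 2 ^ (M + 1) := by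
  refine norm_prod_le e (W M n θ) M s _ (by positivity) ?_
  intro σ
  change val M n θ σ s ≤ _
  by_cases hr : ∀ k, ∃ i, σ i = s k
  · choose t ht using hr
    have hst : s = fun k => σ (t k) := funext fun k => (ht k).symm
    rw [hst]
    have := val_crude M n θ h0 h1 σ t 0 (Nat.zero_le _)
    simpa using this
  · push Not at hr
    obtain ⟨k, hk⟩ := hr
    rw [val_eq_zero M n θ σ s k hk]
    positivity

theorem upper_OC {d : ℕ} (M n : ℕ) (hM : 3 ≤ M) (θ : ℝ) (h0 : 0 ≤ θ) (h1 : θ ≤ 1)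
    (hθ : θ ^ 2 * 2 ^ (M + 1) ≤ 1 / 20)
    (e : Fin d ≃ (Fin (M + 1) ↪ Fin n) × Fin M) (s : Fin (M + 1) → Fin n)
    (i j : Fin (M + 1)) (hoc : OC s i j) :
    ‖(List.ofFn fun k => A e (W M n θ) (s k)).prod‖ ≤ 71 / 50 * θ ^ (2 * (M - 1)) :=
  norm_prod_le e (W M n θ) M s _ (by positivity) fun σ =>
    (val_OC M n hM θ h0 h1 hθ σ s i j hoc).1

theorem upper_OC' {d : ℕ} (M n : ℕ) (hM : 3 ≤ M) (θ : ℝ) (h0 : 0 ≤ θ) (h1 : θ ≤ 1)
    (hθ : θ ^ 2 * 2 ^ (M + 1) ≤ 1 / 20)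
    (e : Fin d ≃ (Fin (M + 1) ↪ Fin n) × Fin M) (s : Fin (M + 1) → Fin n)
    (i j : Fin (M + 1)) (hoc : OC s i j)
    (h : ¬ (((i : ℕ) = 0 ∧ (j : ℕ) = 1) ∨ ((i : ℕ) + 1 = M ∧ (j : ℕ) = M))) :
    ‖(List.ofFn fun k => A e (W M n θ) (s k)).prod‖ ≤ 1 / 20 * θ ^ (2 * (M - 1)) :=
  norm_prod_le e (W M n θ) M s _ (by positivity) fun σ =>
    (val_OC M n hM θ h0 h1 hθ σ s i j hoc).2 h

theorem OC_unique {M n : ℕ} (s : Fin (M + 1) → Fin n) (i j i' j' : Fin (M + 1))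
    (h : OC s i j) (h' : OC s i' j') : i = i' ∧ j = j' := by
  obtain ⟨a1, a2, a3⟩ := h
  obtain ⟨b1, b2, b3⟩ := h'
  have hne : i ≠ j := ne_of_lt a1
  have hne' : i' ≠ j' := ne_of_lt b1
  by_cases hj : j = j'
  · subst hj
    exact ⟨a3 i i' hne hne' (a2.trans b2.symm), rfl⟩
  · exfalso
    by_cases hi : i' = j
    · -- then s i = s j = s i' = s j'
      have := a3 i j' hne (Ne.symm hj) (by rw [a2, ← hi, b2])
      rw [this] at a1
      rw [hi] at b1
      exact absurd a1 (not_lt_of_gt b1)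
    · exact hne' (a3 i' j' hi (Ne.symm hj) b2)

theorem real_ineq (M n : ℕ) (hM : 3 ≤ M) (hn : M + 1 ≤ n) (D K : ℝ) (hD : 0 < D) (hK : 0 ≤ K)
    (hbig : (K + M ^ 2 * D) * 20 < D * n) :
    21 / 25 * D * n ^ M + K * n ^ (M - 1) < 19 / 20 * D * (n.descFactorial M : ℝ) := by
  have hnpos : (0 : ℝ) < n := by
    have : 0 < n := by omega
    exact_mod_cast this
  have h1 : ((n + 1 - M : ℕ) : ℝ) ^ M ≤ (n.descFactorial M : ℝ) := by
    exact_mod_cast Nat.pow_sub_le_descFactorial n M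
  have h2 : ((n + 1 - M : ℕ) : ℝ) = n + 1 - M := by
    rw [Nat.cast_sub (by omega)]
    push_cast
    ring
  have hMn : (M : ℝ) + 1 ≤ n := by exact_mod_cast hn
  have h3 : (1 : ℝ) + M * (-((M - 1) / n)) ≤ (1 + (-((M - 1) / n))) ^ M := by
    apply one_add_mul_le_pow
    have : ((M : ℝ) - 1) / n ≤ 1 := by
      rw [div_le_one hnpos]; linarith
    linarith
  have h4 : (n : ℝ) ^ M - M ^ 2 * n ^ (M - 1) ≤ (n + 1 - M : ℝ) ^ M := by
    have h5 : (n + 1 - M : ℝ) ^ M = n ^ M * (1 + (-((M - 1) / n))) ^ M := by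
      rw [← mul_pow]
      congr 1
      field_simp
      ring
    rw [h5]
    have h6 : (n : ℝ) ^ M * (1 + M * (-((M - 1) / n))) ≤ n ^ M * (1 + (-((M - 1) / n))) ^ M :=
      mul_le_mul_of_nonneg_left h3 (by positivity)
    refine le_trans ?_ h6
    have h7 : (n : ℝ) ^ M = n ^ (M - 1) * n := by
      rw [← pow_succ]; congr 1; omega
    have h8 : (n : ℝ) ^ M * (1 + M * (-((M - 1) / n))) = n ^ M - M * (M - 1) * n ^ (M - 1) := by
      rw [h7]
      field_simp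
      ring
    rw [h8]
    have h9 : 0 ≤ (M : ℝ) * (n : ℝ) ^ (M - 1) := by positivity
    nlinarith
  have h10 : (n : ℝ) ^ M = n ^ (M - 1) * n := by
    rw [← pow_succ]; congr 1; omega
  have h11 : (0 : ℝ) < (n : ℝ) ^ (M - 1) := by positivity
  have h12 : 19 / 20 * D * ((n : ℝ) ^ M - M ^ 2 * n ^ (M - 1)) ≤
      19 / 20 * D * (n.descFactorial M : ℝ) := by
    apply mul_le_mul_of_nonneg_left _ (by positivity)
    rw [h2] at h1
    exact h4.trans h1
  refine lt_of_lt_of_le ?_ h12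
  rw [h10]
  have h13 : 0 ≤ (M : ℝ) ^ 2 * D := by positivity
  have h14 : 21 / 25 * D * n + K < 19 / 20 * D * (n - M ^ 2) := by
    nlinarith
  have := mul_lt_mul_of_pos_right h14 h11
  nlinarith

open Classical in
theorem main (M : ℕ) (hM : 3 ≤ M) : ∃ N : ℕ, M + 1 ≤ N ∧ ∀ n : ℕ, N ≤ n →
    ∃ d : ℕ, 1 ≤ d ∧ ∃ A : Fin n → Matrix (Fin d) (Fin d) ℂ,
      (∀ j, (A j).PosSemidef) ∧ (∀ j a b, (A j a b).im = 0) ∧
      (∑ s : Fin (M + 1) → Fin n, ‖(List.ofFn fun k => A (s k)).prod‖) / (n : ℝ) ^ (M + 1) <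
      ((n - (M + 1))! : ℝ) / (n ! : ℝ) *
        ∑ s ∈ univ.filter (fun s : Fin (M + 1) → Fin n => Function.Injective s),
          ‖(List.ofFn fun k => A (s k)).prod‖ := by
  obtain ⟨θ, hθdef⟩ : ∃ θ : ℝ, θ = (1 / 2) ^ (M + 3) := ⟨_, rfl⟩
  have hθ0 : 0 < θ := by rw [hθdef]; positivity
  have hθ1 : θ ≤ 1 := by rw [hθdef]; exact pow_le_one₀ (by norm_num) (by norm_num)
  have hθ2 : θ ^ 2 * 2 ^ (M + 1) ≤ 1 / 20 := by
    rw [hθdef]
    have e1 : (((1 : ℝ) / 2) ^ (M + 3)) ^ 2 * 2 ^ (M + 1) = (1 / 2) ^ (M + 5) := by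
      have : (2 : ℝ) ^ (M + 1) * (1 / 2) ^ (M + 1) = 1 := by
        rw [← mul_pow]; norm_num
      have e2 : (((1 : ℝ) / 2) ^ (M + 3)) ^ 2 = (1 / 2) ^ (M + 5) * (1 / 2) ^ (M + 1) := by
        rw [← pow_mul, ← pow_add]; congr 1; ring
      rw [e2, mul_assoc, mul_comm ((1 / 2 : ℝ) ^ (M + 1)), this, mul_one]
    rw [e1]
    calc ((1 : ℝ) / 2) ^ (M + 5) ≤ (1 / 2) ^ 5 :=
          pow_le_pow_of_le_one (by norm_num) (by norm_num) (by omega)
      _ ≤ 1 / 20 := by norm_num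
  obtain ⟨D, hDdef⟩ : ∃ D : ℝ, D = θ ^ (2 * (M - 1)) := ⟨_, rfl⟩
  have hD : 0 < D := by rw [hDdef]; positivity
  obtain ⟨K, hKdef⟩ : ∃ K : ℝ, K = 2 ^ (M + 1) * ((M - 1 : ℕ) : ℝ) ^ (M + 1) := ⟨_, rfl⟩
  have hK : 0 ≤ K := by rw [hKdef]; positivity
  obtain ⟨N₀, hN₀⟩ := exists_nat_gt ((K + M ^ 2 * D) * 20 / D)
  refine ⟨max N₀ (M + 1), le_max_right _ _, fun n hn => ?_⟩
  have hnM : M + 1 ≤ n := (le_max_right _ _).trans hn
  have hnN : (K + M ^ 2 * D) * 20 < D * n := by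
    have h1 : (N₀ : ℝ) ≤ n := by exact_mod_cast (le_max_left _ _).trans hn
    rw [div_lt_iff₀ hD] at hN₀
    nlinarith
  have hnpos : (0 : ℝ) < n := by
    have : 0 < n := by omega
    exact_mod_cast this
  -- the matrices
  let e : Fin (Fintype.card ((Fin (M + 1) ↪ Fin n) × Fin M)) ≃ (Fin (M + 1) ↪ Fin n) × Fin M :=
    (Fintype.equivFin _).symm
  refine ⟨Fintype.card ((Fin (M + 1) ↪ Fin n) × Fin M), ?_, A e (W M n θ),
    fun j => A_posSemidef e _ j, fun j a b => A_real e _ j a b, ?_⟩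
  · have : Nonempty ((Fin (M + 1) ↪ Fin n) × Fin M) :=
      ⟨((Fin.castLEEmb hnM), ⟨0, by omega⟩)⟩
    exact Fintype.card_pos
  obtain ⟨ν, hν⟩ : ∃ ν : (Fin (M + 1) → Fin n) → ℝ,
      ∀ s, ‖(List.ofFn fun k => A e (W M n θ) (s k)).prod‖ = ν s := ⟨_, fun _ => rfl⟩
  simp only [hν]
  have hlow : ∀ s, Function.Injective s → D ≤ ν s := fun s hs => by
    rw [← hν, hDdef]; exact lower M n hM θ hθ0.le e s hs
  have hup : ∀ s, ν s ≤ 2 ^ (M + 1) := fun s => by
    rw [← hν]; exact upper M n θ hθ0.le hθ1 e s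
  have hup1 : ∀ s i j, OC s i j → ν s ≤ 71 / 50 * D := fun s i j h => by
    rw [← hν, hDdef]; exact upper_OC M n hM θ hθ0.le hθ1 hθ2 e s i j h
  have hup2 : ∀ s i j, OC s i j →
      ¬ (((i : ℕ) = 0 ∧ (j : ℕ) = 1) ∨ ((i : ℕ) + 1 = M ∧ (j : ℕ) = M)) → ν s ≤ 1 / 20 * D :=
    fun s i j h h' => by
      rw [← hν, hDdef]; exact upper_OC' M n hM θ hθ0.le hθ1 hθ2 e s i j h h'
  have hν0 : ∀ s, 0 ≤ ν s := fun s => by rw [← hν]; exact norm_nonneg _
  -- places
  let p0 : Fin (M + 1) := ⟨0, by omega⟩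
  let p1 : Fin (M + 1) := ⟨1, by omega⟩
  let p2 : Fin (M + 1) := ⟨2, by omega⟩
  let pa : Fin (M + 1) := ⟨M - 1, by omega⟩
  let pb : Fin (M + 1) := ⟨M, by omega⟩
  -- pointwise bound
  have hpt : ∀ s, ¬ Function.Injective s → ν s ≤ D + 21 / 50 * D * (if s p0 = s p1 then 1 else 0)
      + 21 / 50 * D * (if s pa = s pb then 1 else 0)
      - 19 / 20 * D * (if OC s p0 p2 then 1 else 0)
      + 2 ^ (M + 1) * (if (¬ Function.Injective s ∧ ¬ ∃ i j, OC s i j) then 1 else 0) := by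
    intro s hs
    by_cases hex : ∃ i j, OC s i j
    · obtain ⟨i, j, hoc⟩ := hex
      have e4 : ¬ (¬ Function.Injective s ∧ ¬ ∃ i j, OC s i j) := fun h => h.2 ⟨i, j, hoc⟩
      rw [if_neg e4, mul_zero, add_zero]
      by_cases hA : (((i : ℕ) = 0 ∧ (j : ℕ) = 1) ∨ ((i : ℕ) + 1 = M ∧ (j : ℕ) = M))
      · have e3 : ¬ OC s p0 p2 := by
          intro h3
          obtain ⟨h4, h5⟩ := OC_unique s i j p0 p2 hoc h3
          rw [Fin.ext_iff] at h4 h5
          simp only [p0, p2] at h4 h5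
          omega
        rw [if_neg e3, mul_zero, sub_zero]
        have h1 := hup1 s i j hoc
        have hnn1 : 0 ≤ 21 / 50 * D * (if s p0 = s p1 then (1 : ℝ) else 0) := by
          split_ifs <;> positivity
        have hnn2 : 0 ≤ 21 / 50 * D * (if s pa = s pb then (1 : ℝ) else 0) := by
          split_ifs <;> positivity
        rcases hA with hA | hA
        · have : s p0 = s p1 := by
            have a1 : p0 = i := Fin.ext hA.1.symm
            have a2 : p1 = j := Fin.ext hA.2.symm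
            rw [a1, a2]; exact hoc.2.1
          rw [if_pos this] at hnn1 ⊢
          linarith
        · have : s pa = s pb := by
            have a1 : pa = i := Fin.ext (by simp only [pa]; omega)
            have a2 : pb = j := Fin.ext hA.2.symm
            rw [a1, a2]; exact hoc.2.1
          rw [if_pos this] at hnn2 ⊢
          linarith
      · have h1 := hup2 s i j hoc hA
        have hnn1 : 0 ≤ 21 / 50 * D * (if s p0 = s p1 then (1 : ℝ) else 0) := by
          split_ifs <;> positivity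
        have hnn2 : 0 ≤ 21 / 50 * D * (if s pa = s pb then (1 : ℝ) else 0) := by
          split_ifs <;> positivity
        split_ifs at hnn1 hnn2 ⊢ <;> linarith
    · have e3 : ¬ OC s p0 p2 := fun h => hex ⟨_, _, h⟩
      have e5 : (¬ Function.Injective s ∧ ¬ ∃ i j, OC s i j) := ⟨hs, hex⟩
      rw [if_neg e3, if_pos e5]
      have h1 := hup s
      have hnn1 : 0 ≤ 21 / 50 * D * (if s p0 = s p1 then (1 : ℝ) else 0) := by
        split_ifs <;> positivity
      have hnn2 : 0 ≤ 21 / 50 * D * (if s pa = s pb then (1 : ℝ) else 0) := by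
        split_ifs <;> positivity
      linarith
  -- sums
  obtain ⟨I, hI⟩ : ∃ I : Finset (Fin (M + 1) → Fin n),
    I = univ.filter (fun s : Fin (M + 1) → Fin n => Function.Injective s) := ⟨_, rfl⟩
  obtain ⟨J, hJ⟩ : ∃ J : Finset (Fin (M + 1) → Fin n),
    J = univ.filter (fun s : Fin (M + 1) → Fin n => ¬ Function.Injective s) := ⟨_, rfl⟩
  have hsplit : ∀ f : (Fin (M + 1) → Fin n) → ℝ, ∑ s, f s = ∑ s ∈ I, f s + ∑ s ∈ J, f s := by
    intro f
    rw [hI, hJ, Finset.sum_filter_add_sum_filter_not]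
  have hJsum : ∑ s ∈ J, ν s < J.card * D := by
    have h1 : ∑ s ∈ J, ν s ≤ ∑ s ∈ J, (D + 21 / 50 * D * (if s p0 = s p1 then 1 else 0)
      + 21 / 50 * D * (if s pa = s pb then 1 else 0)
      - 19 / 20 * D * (if OC s p0 p2 then 1 else 0)
      + 2 ^ (M + 1) * (if (¬ Function.Injective s ∧ ¬ ∃ i j, OC s i j) then 1 else 0)) := by
      apply Finset.sum_le_sum
      intro s hs
      rw [hJ, mem_filter] at hs
      exact hpt s hs.2
    rw [Finset.sum_add_distrib, Finset.sum_sub_distrib, Finset.sum_add_distrib,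
      Finset.sum_add_distrib, Finset.sum_const, nsmul_eq_mul, ← Finset.mul_sum, ← Finset.mul_sum,
      ← Finset.mul_sum, ← Finset.mul_sum] at h1
    have hle : ∀ (P : (Fin (M + 1) → Fin n) → Prop) [DecidablePred P],
        ∑ s ∈ J, (if P s then (1 : ℝ) else 0) ≤ ((univ.filter P).card : ℝ) := by
      intro P _
      rw [Finset.sum_boole]
      exact_mod_cast Finset.card_le_card (by
        intro s hs
        simp only [mem_filter, mem_univ, true_and] at hs ⊢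
        exact hs.2)
    have b1 : ∑ s ∈ J, (if s p0 = s p1 then (1 : ℝ) else 0) ≤ (n : ℝ) ^ M := by
      refine (hle _).trans ?_
      exact_mod_cast card_eq_le M n p0 p1 (by simp [p0, p1, Fin.ext_iff])
    have b2 : ∑ s ∈ J, (if s pa = s pb then (1 : ℝ) else 0) ≤ (n : ℝ) ^ M := by
      refine (hle _).trans ?_
      exact_mod_cast card_eq_le M n pa pb (by simp only [pa, pb, ne_eq, Fin.ext_iff]; omega)
    have b4 : ∑ s ∈ J, (if (¬ Function.Injective s ∧ ¬ ∃ i j, OC s i j) then (1 : ℝ) else 0) ≤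
        ((M - 1 : ℕ) : ℝ) ^ (M + 1) * (n : ℝ) ^ (M - 1) := by
      refine (hle _).trans ?_
      exact_mod_cast card_R M n hM
    have b3 : (n.descFactorial M : ℝ) ≤ ∑ s ∈ J, (if OC s p0 p2 then (1 : ℝ) else 0) := by
      rw [Finset.sum_boole]
      have := card_T M n hM
      refine le_trans (Nat.cast_le.2 this) (Nat.cast_le.2 (Finset.card_le_card ?_))
      intro s hs
      simp only [mem_filter, mem_univ, true_and] at hs ⊢
      refine ⟨?_, hs⟩
      rw [hJ, mem_filter]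
      refine ⟨mem_univ _, fun hinj => ?_⟩
      exact absurd (hinj hs.2.1) (ne_of_lt hs.1)
    have hri := real_ineq M n hM hnM D K hD hK hnN
    have c1 := mul_le_mul_of_nonneg_left b1 (by positivity : 0 ≤ 21 / 50 * D)
    have c2 := mul_le_mul_of_nonneg_left b2 (by positivity : 0 ≤ 21 / 50 * D)
    have c3 := mul_le_mul_of_nonneg_left b3 (by positivity : 0 ≤ 19 / 20 * D)
    have c4 := mul_le_mul_of_nonneg_left b4 (by positivity : (0 : ℝ) ≤ 2 ^ (M + 1))
    rw [← mul_assoc, ← hKdef] at c4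
    linarith
  have hIcard : (I.card : ℝ) = (n.descFactorial (M + 1) : ℝ) := by
    have h1 : Fintype.card (Fin (M + 1) ↪ Fin n) = n.descFactorial (M + 1) := by
      rw [Fintype.card_embedding_eq]; simp
    rw [← h1, hI]
    have h2 : Fintype.card {s : Fin (M + 1) → Fin n // Function.Injective s} =
        Fintype.card (Fin (M + 1) ↪ Fin n) :=
      Fintype.card_congr (Equiv.subtypeInjectiveEquivEmbedding _ _)
    rw [← h2, Fintype.card_subtype]
  have htot : (I.card : ℝ) + J.card = (n : ℝ) ^ (M + 1) := by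
    have h1 := Finset.card_filter_add_card_filter_not
      (s := (univ : Finset (Fin (M + 1) → Fin n))) (fun s => Function.Injective s)
    rw [← hI, ← hJ, Finset.card_univ, Fintype.card_fun, Fintype.card_fin, Fintype.card_fin] at h1
    exact_mod_cast h1
  have hIpos : (0 : ℝ) < I.card := by
    rw [hIcard]
    exact_mod_cast Nat.descFactorial_pos.2 hnM
  have hfac : ((n - (M + 1))! : ℝ) / (n ! : ℝ) = 1 / (I.card : ℝ) := by
    have h1 := Nat.factorial_mul_descFactorial hnM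
    have h2 : (n ! : ℝ) = ((n - (M + 1))! : ℝ) * I.card := by
      rw [hIcard, ← h1]; push_cast; ring
    have h3 : ((n - (M + 1))! : ℝ) ≠ 0 := by exact_mod_cast Nat.factorial_ne_zero _
    rw [h2]
    field_simp
  have hIsum : (I.card : ℝ) * D ≤ ∑ s ∈ I, ν s := by
    rw [← nsmul_eq_mul]
    apply Finset.card_nsmul_le_sum
    intro s hs
    rw [hI, mem_filter] at hs
    exact hlow s hs.2
  rw [hfac, ← hI, hsplit, ← htot]
  have hJ0 : (0 : ℝ) ≤ J.card := by positivity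
  rw [div_lt_iff₀ (by positivity), one_div, mul_comm (I.card : ℝ)⁻¹, mul_assoc]
  obtain ⟨a, ha⟩ : ∃ a : ℝ, a = ∑ s ∈ I, ν s := ⟨_, rfl⟩
  obtain ⟨b, hb⟩ : ∃ b : ℝ, b = ∑ s ∈ J, ν s := ⟨_, rfl⟩
  rw [← ha, ← hb]
  rw [← ha] at hIsum
  rw [← hb] at hJsum
  have hne : (I.card : ℝ) ≠ 0 := hIpos.ne'
  have h5 : (I.card : ℝ)⁻¹ * (I.card + J.card) = 1 + J.card / I.card := by
    field_simp
  rw [h5, mul_add, mul_one]
  have h6 : b < a * (J.card / I.card) := by
    have h7 : (J.card : ℝ) * D ≤ a * (J.card / I.card) := by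
      rw [← mul_div_assoc, le_div_iff₀ hIpos]
      nlinarith
    linarith
  linarith

end

end Pool.Agent.Q205.AGM
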