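import Mathlib

open Finset Matrix
open scoped Matrix.Norms.L2Operator

namespace Pool.Agent.Q205.AGM

/-- Frobenius bound on the blocks of a block diagonal matrix bounds the spectral norm. -/
theorem norm_le_of_block {ι S : Type*} [Fintype ι] [DecidableEq ι] [Fintype S] [DecidableEq S]
    (f : ι → S) (M : Matrix ι ι ℂ) (K : ℝ) (hK : 0 ≤ K)
    (hz : ∀ x y, f x ≠ f y → M x y = 0)
    (hb : ∀ σ, ∑ x, (if f x = σ then ∑ y, ‖M x y‖ ^ 2 else 0) ≤ K ^ 2) : ‖M‖ ≤ K := by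
  rw [l2_opNorm_def]
  apply ContinuousLinearMap.opNorm_le_bound _ hK
  intro v
  have key : ‖(WithLp.toLp 2 (M *ᵥ v.ofLp) : EuclideanSpace ℂ ι)‖ ^ 2 ≤ (K * ‖v‖) ^ 2 := by
    rw [EuclideanSpace.norm_sq_eq, mul_pow, EuclideanSpace.norm_sq_eq]
    have h1 : ∀ x, ‖(M *ᵥ v.ofLp) x‖ ^ 2 ≤
        (∑ y, ‖M x y‖ ^ 2) * ∑ y, (if f y = f x then ‖v y‖ else 0) ^ 2 := by
      intro x
      have h2 : ‖(M *ᵥ v.ofLp) x‖ ≤ ∑ y, ‖M x y‖ * (if f y = f x then ‖v y‖ else 0) := by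
        rw [mulVec, dotProduct]
        refine (norm_sum_le _ _).trans (Finset.sum_le_sum fun y _ => ?_)
        rw [norm_mul]
        split_ifs with h
        · exact le_rfl
        · rw [hz x y (fun h' => h h'.symm)]
          simp
      calc ‖(M *ᵥ v.ofLp) x‖ ^ 2
          ≤ (∑ y, ‖M x y‖ * (if f y = f x then ‖v y‖ else 0)) ^ 2 :=
            pow_le_pow_left₀ (norm_nonneg _) h2 2
        _ ≤ _ := Finset.sum_mul_sq_le_sq_mul_sq _ _ _
    have h3 : ∀ σ, ∑ x, (if f x = σ then (∑ y, ‖M x y‖ ^ 2) *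
        ∑ y, (if f y = f x then ‖v y‖ else 0) ^ 2 else 0) ≤
        K ^ 2 * ∑ y, (if f y = σ then ‖v y‖ ^ 2 else 0) := by
      intro σ
      have h4 : ∑ x, (if f x = σ then (∑ y, ‖M x y‖ ^ 2) *
          ∑ y, (if f y = f x then ‖v y‖ else 0) ^ 2 else 0) =
          (∑ x, (if f x = σ then ∑ y, ‖M x y‖ ^ 2 else 0)) *
            ∑ y, (if f y = σ then ‖v y‖ ^ 2 else 0) := by
        rw [Finset.sum_mul]
        refine Finset.sum_congr rfl fun x _ => ?_
        split_ifs with h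
        · congr 1
          refine Finset.sum_congr rfl fun y _ => ?_
          rw [h]
          split_ifs <;> simp
        · simp
      rw [h4]
      refine mul_le_mul_of_nonneg_right (hb σ) (Finset.sum_nonneg fun y _ => ?_)
      split_ifs <;> positivity
    calc ∑ x, ‖(M *ᵥ v.ofLp) x‖ ^ 2
        ≤ ∑ x, (∑ y, ‖M x y‖ ^ 2) * ∑ y, (if f y = f x then ‖v y‖ else 0) ^ 2 :=
          Finset.sum_le_sum fun x _ => h1 x
      _ = ∑ σ, ∑ x, (if f x = σ then (∑ y, ‖M x y‖ ^ 2) *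
            ∑ y, (if f y = f x then ‖v y‖ else 0) ^ 2 else 0) := by
          rw [Finset.sum_comm]
          refine Finset.sum_congr rfl fun x _ => ?_
          rw [Finset.sum_ite_eq]
          simp
      _ ≤ ∑ σ, K ^ 2 * ∑ y, (if f y = σ then ‖v y‖ ^ 2 else 0) :=
          Finset.sum_le_sum fun σ _ => h3 σ
      _ = K ^ 2 * ∑ y, ‖v y‖ ^ 2 := by
          rw [← Finset.mul_sum, Finset.sum_comm]
          congr 1
          refine Finset.sum_congr rfl fun y _ => ?_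
          rw [Finset.sum_ite_eq]
          simp
  have h5 := abs_le_of_sq_le_sq key (by positivity)
  rw [abs_of_nonneg (norm_nonneg _)] at h5
  exact h5

theorem norm_entry_le {ι : Type*} [Fintype ι] [DecidableEq ι] (M : Matrix ι ι ℂ) (x y : ι) :
    ‖M x y‖ ≤ ‖M‖ := by
  have h := l2_opNorm_mulVec M (EuclideanSpace.single y (1 : ℂ))
  have h1 : ‖(EuclideanSpace.single y (1 : ℂ) : EuclideanSpace ℂ ι)‖ = 1 := by simp
  rw [h1, mul_one] at h
  have h2 := PiLp.norm_apply_le (p := 2) (WithLp.toLp 2 (M *ᵥ (EuclideanSpace.single y (1 : ℂ)).ofLp)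
    : EuclideanSpace ℂ ι) x
  have h3 : (WithLp.toLp 2 (M *ᵥ (EuclideanSpace.single y (1 : ℂ)).ofLp) : EuclideanSpace ℂ ι) x
      = M x y := by
    simp
  rw [h3] at h2
  exact h2.trans h

end Pool.Agent.Q205.AGM
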