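import Pool.Agent.Helper446.Oracle

/-!
A noncomputable set below the halting set which computes no noncomputable c.e. set
(a `1`-generic set).
-/

namespace Pool.Agent.Q205.Gen1

open Encodable Pool.Agent.Helper446 Pool.Agent.Helper446.Defs Pool.Agent.Helper446.Oracle
open Nat.Partrec

section

variable {α β : Type*} [Primcodable α] [Primcodable β]

/-- The halting set. -/
def Kset : Set ℕ := {n | ((Denumerable.ofNat Code n).eval n).Dom}

/-- The universal c.e. relation. -/
def W (e : ℕ) (a : α) : Prop := ((Denumerable.ofNat Code e).eval (encode a)).Dom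

theorem W_re : REPred fun x : ℕ × α => W x.1 x.2 := by
  have h : Partrec fun x : ℕ × α => (Denumerable.ofNat Code x.1).eval (encode x.2) := by
    have h1 : Computable fun x : ℕ × α => Denumerable.ofNat Code x.1 :=
      (Primrec.ofNat Code).to_comp.comp Computable.fst
    have h2 : Computable fun x : ℕ × α => encode x.2 := Computable.encode.comp Computable.snd
    exact Code.eval_part.comp h1 h2
  exact h.dom_re

theorem exists_code_of_re {p : α → Prop} (hp : REPred p) :
    ∃ c : Code, ∀ a, (c.eval (encode a)).Dom ↔ p a := by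
  obtain ⟨c, hc⟩ := Nat.Partrec.Code.exists_code.1 hp
  refine ⟨c, fun a => ?_⟩
  have h1 : Code.eval c (encode a) =
      (Part.assert (p a) fun _ => Part.some ()).map encode := by
    rw [hc]; simp
  rw [h1]
  simp only [Part.map_Dom]
  constructor
  · rintro ⟨h, -⟩; exact h
  · intro h; exact ⟨h, trivial⟩

theorem exists_W {p : α → Prop} (hp : REPred p) : ∃ e, ∀ a, W e a ↔ p a := by
  obtain ⟨c, hc⟩ := exists_code_of_re hp
  refine ⟨encode c, fun a => ?_⟩
  unfold W
  rw [Denumerable.ofNat_encode]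
  exact hc a

theorem K_complete {p : α → Prop} (hp : REPred p) :
    ∃ f : α → ℕ, Computable f ∧ ∀ a, p a ↔ f a ∈ Kset := by
  obtain ⟨c, hc⟩ := exists_code_of_re hp
  refine ⟨fun a => encode (Code.curry (Code.comp c Code.left) (encode a)), ?_, fun a => ?_⟩
  · exact Computable.encode.comp ((Code.primrec₂_curry.to_comp.comp (Computable.const _)
      Computable.encode))
  · show _ ↔ ((Denumerable.ofNat Code _).eval _).Dom
    rw [Denumerable.ofNat_encode, Code.eval_curry]
    rw [← hc a]
    have h1 : (Code.comp c Code.left).eval (Nat.pair (encode a)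
        (encode ((Code.comp c Code.left).curry (encode a)))) = c.eval (encode a) := by
      show (Part.some (Nat.unpair _).1 : Part ℕ) >>= c.eval = _
      rw [Nat.unpair_pair]
      exact Part.bind_some _ _
    rw [h1]

theorem REIn_not {p : α → Prop} (hp : REPred p) : REIn Kset fun a => ¬ p a := by
  obtain ⟨f, hf, h⟩ := K_complete hp
  exact (REIn.not_mem hf).of_eq fun a => (not_congr (h a)).symm

/-- The graph of a function which is computable up to a search is c.e. -/
theorem graph_re {f : α →. β} (hf : Partrec f) : REPred fun x : α × β => x.2 ∈ f x.1 := by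
  classical
  have h1 : Partrec fun x : α × β => (f x.1).bind fun b =>
      bif decide (encode b = encode x.2) then Part.some () else Part.none := by
    refine Partrec.bind (hf.comp Computable.fst) ?_
    have h2 : Computable fun y : (α × β) × β => decide (encode y.2 = encode y.1.2) :=
      RE.cdecide (RE.cp_eq (by fun_prop) (by fun_prop))
    exact Partrec.cond h2 (Computable.const ()).partrec Partrec.none
  refine h1.dom_re.of_eq fun x => ?_
  rw [Part.dom_iff_mem]
  constructor
  · rintro ⟨u, hu⟩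
    obtain ⟨b, hb, hu⟩ := Part.mem_bind_iff.1 hu
    by_cases h : encode b = encode x.2
    · rw [← encode_injective h]; exact hb
    · simp [h] at hu
  · intro h
    exact ⟨(), Part.mem_bind_iff.2 ⟨x.2, h, by simp⟩⟩

end

section construction

/-- A selector for extensions in the `e`-th c.e. set of strings. -/
theorem sel_exists : ∃ f : (ℕ × List Bool) →. List Bool, Partrec f ∧
    (∀ x, (f x).Dom ↔ ∃ τ, x.2 <+: τ ∧ W x.1 τ) ∧ ∀ x, ∀ τ ∈ f x, x.2 <+: τ ∧ W x.1 τ := by
  refine RE.uniformize (r := fun (x : ℕ × List Bool) τ => x.2 <+: τ ∧ W x.1 τ) ?_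
  refine RE.and ?_ (RE.comp (W_re (α := List Bool))
    (f := fun x : (ℕ × List Bool) × List Bool => (x.1.1, x.2)) (by fun_prop))
  refine (RE.ex (p := fun (x : (ℕ × List Bool) × List Bool) (t : List Bool) =>
    x.1.2 ++ t = x.2) (RE.eq (by fun_prop) (by fun_prop))).of_eq fun x => ?_
  exact Iff.rfl

/-- The chosen selector. -/
noncomputable def sel : (ℕ × List Bool) →. List Bool := sel_exists.choose

theorem sel_partrec : Partrec sel := sel_exists.choose_spec.1
theorem sel_dom (x) : (sel x).Dom ↔ ∃ τ, x.2 <+: τ ∧ W x.1 τ := sel_exists.choose_spec.2.1 x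
theorem sel_mem (x) : ∀ τ ∈ sel x, x.2 <+: τ ∧ W x.1 τ := sel_exists.choose_spec.2.2 x

open Classical in
/-- One step of the construction. -/
noncomputable def nxt (e : ℕ) (σ : List Bool) : List Bool :=
  (if h : (sel (e, σ)).Dom then (sel (e, σ)).get h else σ) ++ [false]

theorem nxt_ext (e : ℕ) (σ : List Bool) : σ <+: nxt e σ := by
  unfold nxt
  split_ifs with h
  · exact (sel_mem _ _ (Part.get_mem h)).1.trans (List.prefix_append _ _)
  · exact List.prefix_append _ _

theorem nxt_length (e : ℕ) (σ : List Bool) : σ.length < (nxt e σ).length := by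
  unfold nxt
  split_ifs with h
  · have := (sel_mem _ _ (Part.get_mem h)).1.length_le
    simp only [List.length_append, List.length_cons, List.length_nil]
    simp only at this
    omega
  · simp

theorem nxt_graph : REIn Kset fun x : (ℕ × List Bool) × List Bool => nxt x.1.1 x.1.2 = x.2 := by
  have h1 : REIn Kset fun x : (ℕ × List Bool) × List Bool =>
      (∃ τ, τ ∈ sel x.1 ∧ τ ++ [false] = x.2) ∨
      ((¬ ∃ τ, x.1.2 <+: τ ∧ W x.1.1 τ) ∧ x.1.2 ++ [false] = x.2) := by
    refine REIn.or (REIn.of_re ?_) (REIn.and ?_ (REIn.of_re (RE.eq (by fun_prop) (by fun_prop))))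
    · refine RE.ex (p := fun (x : (ℕ × List Bool) × List Bool) τ =>
        τ ∈ sel x.1 ∧ τ ++ [false] = x.2) (RE.and ?_ (RE.eq (by fun_prop) (by fun_prop)))
      exact RE.comp (graph_re sel_partrec)
        (f := fun x : ((ℕ × List Bool) × List Bool) × List Bool => (x.1.1, x.2)) (by fun_prop)
    · have h2 : REPred fun x : ℕ × List Bool => (sel x).Dom := sel_partrec.dom_re
      refine ((REIn_not h2).comp (f := fun x : (ℕ × List Bool) × List Bool => x.1)
        (by fun_prop)).of_eq fun x => ?_
      exact not_congr (sel_dom x.1)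
  refine h1.of_eq fun x => ?_
  obtain ⟨⟨e, σ⟩, ρ⟩ := x
  simp only
  unfold nxt
  by_cases h : (sel (e, σ)).Dom
  · rw [dif_pos h]
    have h3 := (sel_dom (e, σ)).1 h
    constructor
    · rintro (⟨τ, h4, h5⟩ | ⟨h4, -⟩)
      · rw [← h5, Part.get_eq_of_mem h4 h]
      · exact absurd h3 h4
    · intro h4
      exact Or.inl ⟨_, Part.get_mem h, h4⟩
  · rw [dif_neg h]
    have h3 := fun h' => h ((sel_dom (e, σ)).2 h')
    constructor
    · rintro (⟨τ, h4, h5⟩ | ⟨-, h5⟩)
      · exact absurd h4.1 h
      · exact h5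
    · intro h4
      exact Or.inr ⟨h3, h4⟩

/-- The initial segments of the generic set. -/
noncomputable def s : ℕ → List Bool
  | 0 => []
  | e + 1 => nxt e (s e)

theorem s_mono {i j : ℕ} (h : i ≤ j) : s i <+: s j := by
  induction j, h using Nat.le_induction with
  | base => exact List.prefix_rfl
  | succ j _ ih => exact ih.trans (nxt_ext _ _)

theorem s_length (e : ℕ) : e ≤ (s e).length := by
  induction e with
  | zero => exact Nat.zero_le _
  | succ e ih => exact lt_of_le_of_lt ih (nxt_length e (s e))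

theorem s_graph : REIn Kset fun x : ℕ × List Bool => s x.1 = x.2 := by
  have h1 : REIn Kset fun x : ℕ × List Bool => ∃ l : List (List Bool),
      (l[0]? = some [] ∧ l[x.1]? = some x.2) ∧
      ∀ i < x.1, ∃ p : List Bool × List Bool, (l[i]? = some p.1 ∧ l[i + 1]? = some p.2) ∧
        nxt i p.1 = p.2 := by
    refine REIn.ex (S := fun (x : ℕ × List Bool) (l : List (List Bool)) =>
      (l[0]? = some [] ∧ l[x.1]? = some x.2) ∧
      ∀ i < x.1, ∃ p : List Bool × List Bool, (l[i]? = some p.1 ∧ l[i + 1]? = some p.2) ∧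
        nxt i p.1 = p.2) ?_
    refine REIn.and (REIn.of_re (RE.and (RE.eq (by fun_prop) (by fun_prop))
      (RE.eq (by fun_prop) (by fun_prop)))) ?_
    refine REIn.all_lt (S := fun (x : (ℕ × List Bool) × List (List Bool)) i =>
      ∃ p : List Bool × List Bool, (x.2[i]? = some p.1 ∧ x.2[i + 1]? = some p.2) ∧
        nxt i p.1 = p.2) (f := fun x : (ℕ × List Bool) × List (List Bool) => x.1.1) ?_
        (by fun_prop)
    refine REIn.ex (S := fun (x : ((ℕ × List Bool) × List (List Bool)) × ℕ)
      (p : List Bool × List Bool) => (x.1.2[x.2]? = some p.1 ∧ x.1.2[x.2 + 1]? = some p.2) ∧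
        nxt x.2 p.1 = p.2) ?_
    refine REIn.and (REIn.of_re (RE.and (RE.eq (by fun_prop) (by fun_prop))
      (RE.eq (by fun_prop) (by fun_prop)))) ?_
    exact nxt_graph.comp (f := fun x : (((ℕ × List Bool) × List (List Bool)) × ℕ) ×
      (List Bool × List Bool) => ((x.1.2, x.2.1), x.2.2)) (by fun_prop)
  refine h1.of_eq fun x => ?_
  obtain ⟨e, σ⟩ := x
  simp only
  constructor
  · rintro ⟨l, ⟨h2, h3⟩, h4⟩
    have h5 : ∀ i ≤ e, l[i]? = some (s i) := by
      intro i
      induction i with
      | zero => intro _; exact h2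
      | succ i ih =>
        intro hi
        obtain ⟨p, ⟨h6, h7⟩, h8⟩ := h4 i (by omega)
        rw [h7]
        rw [ih (by omega)] at h6
        have h9 : s i = p.1 := Option.some.inj h6
        show some p.2 = some (nxt i (s i))
        rw [h9, h8]
    have h6 := h5 e le_rfl
    rw [h3] at h6
    exact (Option.some.inj h6).symm
  · intro h2
    refine ⟨(List.range (e + 1)).map s, ⟨?_, ?_⟩, fun i hi => ⟨(s i, s (i + 1)), ⟨?_, ?_⟩, rfl⟩⟩
    · rw [List.getElem?_map, List.getElem?_range (by omega)]; rfl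
    · rw [List.getElem?_map, List.getElem?_range (by omega), ← h2]; rfl
    · rw [List.getElem?_map, List.getElem?_range (by omega)]; rfl
    · rw [List.getElem?_map, List.getElem?_range (by omega)]; rfl

/-- The generic set. -/
def G : Set ℕ := {n | ∃ e, (s e)[n]? = some true}

theorem get_mono {i j n : ℕ} {b : Bool} (h : i ≤ j) (hb : (s i)[n]? = some b) :
    (s j)[n]? = some b := by
  obtain ⟨t, ht⟩ := s_mono h
  rw [← ht]
  have hn : n < (s i).length := by
    by_contra hcon
    rw [List.getElem?_eq_none (by omega)] at hb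
    exact absurd hb (by simp)
  rw [List.getElem?_append_left hn]
  exact hb

theorem mem_iff {n e : ℕ} (h : n < (s e).length) : n ∈ G ↔ (s e)[n]? = some true := by
  constructor
  · rintro ⟨i, hi⟩
    rcases le_total i e with hie | hie
    · exact get_mono hie hi
    · have h1 : (s e)[n]? = some (s e)[n] := List.getElem?_eq_getElem h
      have h2 := get_mono hie h1
      rw [hi] at h2
      rw [h1, h2]
  · exact fun h => ⟨e, h⟩

theorem not_mem_iff {n e : ℕ} (h : n < (s e).length) : n ∉ G ↔ (s e)[n]? = some false := by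
  rw [mem_iff h, List.getElem?_eq_getElem h]
  simp

theorem not_mem_iff' {n : ℕ} : n ∉ G ↔ ∃ e, (s e)[n]? = some false := by
  constructor
  · intro h
    have h1 : n < (s (n + 1)).length := s_length (n + 1)
    exact ⟨n + 1, (not_mem_iff h1).1 h⟩
  · rintro ⟨e, he⟩
    have hn : n < (s e).length := by
      by_contra hcon
      rw [List.getElem?_eq_none (by omega)] at he
      exact absurd he (by simp)
    exact (not_mem_iff hn).2 he

theorem G_re (b : Bool) : REIn Kset fun n : ℕ => ∃ e, (s e)[n]? = some b := by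
  have h1 : REIn Kset fun n : ℕ => ∃ p : ℕ × List Bool, s p.1 = p.2 ∧ p.2[n]? = some b := by
    refine REIn.ex (S := fun (n : ℕ) (p : ℕ × List Bool) => s p.1 = p.2 ∧ p.2[n]? = some b) ?_
    refine REIn.and (s_graph.comp (f := fun x : ℕ × (ℕ × List Bool) => x.2) (by fun_prop))
      (REIn.of_re (RE.eq (by fun_prop) (by fun_prop)))
  refine h1.of_eq fun n => ?_
  constructor
  · rintro ⟨⟨e, σ⟩, h2, h3⟩
    exact ⟨e, by rw [h2]; exact h3⟩
  · rintro ⟨e, he⟩
    exact ⟨(e, s e), rfl, he⟩

/-- The generic set is below the halting set. -/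
theorem G_le : REIn Kset (· ∈ G) ∧ REIn Kset (· ∉ G) :=
  ⟨G_re true, (G_re false).of_eq fun _ => not_mem_iff'.symm⟩

/-- Genericity. -/
theorem generic {P : List Bool → Prop} (hP : REPred P) :
    (∃ e τ, τ <+: s e ∧ P τ) ∨ ∃ e, ∀ τ, s e <+: τ → ¬ P τ := by
  obtain ⟨e, he⟩ := exists_W hP
  by_cases h : (sel (e, s e)).Dom
  · left
    have h1 := sel_mem _ _ (Part.get_mem h)
    refine ⟨e + 1, (sel (e, s e)).get h, ?_, (he _).1 h1.2⟩
    show _ <+: nxt e (s e)
    unfold nxt
    rw [dif_pos h]
    exact List.prefix_append _ _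
  · right
    refine ⟨e, fun τ hτ hP => h ((sel_dom _).2 ⟨τ, hτ, (he _).2 hP⟩)⟩

/-- `c` is correct for the string `τ`. -/
def OkS (τ : List Bool) (c : List ℕ × List ℕ) : Prop :=
  (∀ x ∈ c.1, τ[x]? = some true) ∧ ∀ x ∈ c.2, τ[x]? = some false

theorem OkS_re : REPred fun x : List Bool × (List ℕ × List ℕ) => OkS x.1 x.2 := by
  refine RE.and ?_ ?_
  · refine RE.all_mem (p := fun (x : List Bool × (List ℕ × List ℕ)) (y : ℕ) =>
      x.1[y]? = some true) (l := fun x : List Bool × (List ℕ × List ℕ) => x.2.1)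
      (RE.eq (by fun_prop) (by fun_prop)) (by fun_prop)
  · refine RE.all_mem (p := fun (x : List Bool × (List ℕ × List ℕ)) (y : ℕ) =>
      x.1[y]? = some false) (l := fun x : List Bool × (List ℕ × List ℕ) => x.2.2)
      (RE.eq (by fun_prop) (by fun_prop)) (by fun_prop)

theorem ok_of_okS {τ : List Bool} {e : ℕ} (h : τ <+: s e) {c : List ℕ × List ℕ} (hc : OkS τ c) :
    Ok G c := by
  obtain ⟨t, ht⟩ := h
  have key : ∀ (n : ℕ) (b : Bool), τ[n]? = some b → (s e)[n]? = some b := by
    intro n b hb
    have hn : n < τ.length := by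
      by_contra hcon
      rw [List.getElem?_eq_none (by omega)] at hb
      exact absurd hb (by simp)
    rw [← ht, List.getElem?_append_left hn]
    exact hb
  exact ⟨fun x hx => ⟨e, key _ _ (hc.1 x hx)⟩, fun x hx => not_mem_iff'.2 ⟨e, key _ _ (hc.2 x hx)⟩⟩

theorem okS_of_ok {c : List ℕ × List ℕ} (hc : Ok G c) (e : ℕ) : ∃ i, e ≤ i ∧ OkS (s i) c := by
  obtain ⟨N, hN⟩ : ∃ N, ∀ x ∈ c.1 ++ c.2, x < N := by
    refine ⟨(c.1 ++ c.2).sum + 1, fun x hx => ?_⟩
    exact Nat.lt_succ_of_le (List.single_le_sum (fun _ _ => Nat.zero_le _) x hx)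
  refine ⟨max e N, le_max_left _ _, ?_, ?_⟩
  · intro x hx
    have h1 : x < (s (max e N)).length :=
      lt_of_lt_of_le (hN x (List.mem_append_left _ hx)) ((le_max_right _ _).trans (s_length _))
    exact (mem_iff h1).1 (hc.1 x hx)
  · intro x hx
    have h1 : x < (s (max e N)).length :=
      lt_of_lt_of_le (hN x (List.mem_append_right _ hx)) ((le_max_right _ _).trans (s_length _))
    exact (not_mem_iff h1).1 (hc.2 x hx)

/-- The generic set computes no noncomputable c.e. set: if a set is c.e. and its complement is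
c.e. in `G`, then it is computable. -/
theorem re_compl {α : Type*} [Primcodable α] {B : α → Prop} (hB : REPred B)
    (hB' : REIn G fun a => ¬ B a) : REPred fun a => ¬ B a := by
  obtain ⟨R, hR, h⟩ := hB'
  have hP : REPred fun τ : List Bool => ∃ a : α, ∃ c : List ℕ × List ℕ,
      (B a ∧ R a c) ∧ OkS τ c := by
    refine RE.ex (p := fun (τ : List Bool) (a : α) => ∃ c : List ℕ × List ℕ,
      (B a ∧ R a c) ∧ OkS τ c) ?_
    refine RE.ex (p := fun (x : List Bool × α) (c : List ℕ × List ℕ) =>
      (B x.2 ∧ R x.2 c) ∧ OkS x.1 c) ?_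
    refine RE.and (RE.and ?_ ?_) ?_
    · exact RE.comp hB (f := fun x : (List Bool × α) × (List ℕ × List ℕ) => x.1.2) (by fun_prop)
    · exact RE.comp hR (f := fun x : (List Bool × α) × (List ℕ × List ℕ) => (x.1.2, x.2))
        (by fun_prop)
    · exact RE.comp OkS_re (f := fun x : (List Bool × α) × (List ℕ × List ℕ) => (x.1.1, x.2))
        (by fun_prop)
  rcases generic hP with ⟨e, τ, hτ, a, c, ⟨hBa, hRa⟩, hok⟩ | ⟨e, he⟩
  · exact absurd hBa ((h a).2 ⟨c, hRa, ok_of_okS hτ hok⟩)
  · have h2 : REPred fun a : α => ∃ c : List ℕ × List ℕ, ∃ t : List Bool,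
        R a c ∧ OkS (s e ++ t) c := by
      refine RE.ex (p := fun (a : α) (c : List ℕ × List ℕ) => ∃ t : List Bool,
        R a c ∧ OkS (s e ++ t) c) ?_
      refine RE.ex (p := fun (x : α × (List ℕ × List ℕ)) (t : List Bool) =>
        R x.1 x.2 ∧ OkS (s e ++ t) x.2) (RE.and ?_ ?_)
      · exact RE.comp hR (f := fun x : (α × (List ℕ × List ℕ)) × List Bool => (x.1.1, x.1.2))
          (by fun_prop)
      · exact RE.comp OkS_re (f := fun x : (α × (List ℕ × List ℕ)) × List Bool =>
          (s e ++ x.2, x.1.2)) (by fun_prop)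
    refine h2.of_eq fun a => ?_
    constructor
    · rintro ⟨c, t, hRa, hok⟩ hBa
      exact he (s e ++ t) (List.prefix_append _ _) ⟨a, c, ⟨hBa, hRa⟩, hok⟩
    · intro hBa
      obtain ⟨c, hRa, hok⟩ := (h a).1 hBa
      obtain ⟨i, hi, hok'⟩ := okS_of_ok hok e
      obtain ⟨t, ht⟩ := s_mono hi
      exact ⟨c, t, hRa, by rw [ht]; exact hok'⟩

/-- The generic set is not computable. -/
theorem G_not_comp : ¬ ComputablePred (fun n => n ∈ G) := by
  intro hG
  have h1 : REPred fun n => n ∈ G := hG.to_re
  have h2 : REPred fun n => n ∉ G := hG.not.to_re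
  have hP : REPred fun τ : List Bool => ∃ n : ℕ,
      (n ∈ G ∧ τ[n]? = some false) ∨ (n ∉ G ∧ τ[n]? = some true) := by
    refine RE.ex (p := fun (τ : List Bool) (n : ℕ) =>
      (n ∈ G ∧ τ[n]? = some false) ∨ (n ∉ G ∧ τ[n]? = some true)) ?_
    refine RE.or (RE.and ?_ (RE.eq (by fun_prop) (by fun_prop)))
      (RE.and ?_ (RE.eq (by fun_prop) (by fun_prop)))
    · exact RE.comp h1 (f := fun x : List Bool × ℕ => x.2) (by fun_prop)
    · exact RE.comp h2 (f := fun x : List Bool × ℕ => x.2) (by fun_prop)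
  rcases generic hP with ⟨e, τ, ⟨t, ht⟩, n, hn⟩ | ⟨e, he⟩
  · have key : ∀ (n : ℕ) (b : Bool), τ[n]? = some b → (s e)[n]? = some b := by
      intro n b hb
      have hn : n < τ.length := by
        by_contra hcon
        rw [List.getElem?_eq_none (by omega)] at hb
        exact absurd hb (by simp)
      rw [← ht, List.getElem?_append_left hn]
      exact hb
    rcases hn with ⟨h3, h4⟩ | ⟨h3, h4⟩
    · exact (not_mem_iff'.2 ⟨e, key _ _ h4⟩) h3
    · exact h3 ⟨e, key _ _ h4⟩
  · by_cases hm : (s e).length ∈ G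
    · refine he (s e ++ [false]) (List.prefix_append _ _) ⟨(s e).length, Or.inl ⟨hm, ?_⟩⟩
      simp
    · refine he (s e ++ [true]) (List.prefix_append _ _) ⟨(s e).length, Or.inr ⟨hm, ?_⟩⟩
      simp

end construction

end Pool.Agent.Q205.Gen1
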