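import Pool.Agent.Q205.Gen1

/-!
A computable bipartite graph whose neighbour lists are computable in a set which computes no
noncomputable c.e. set has a computable proper colouring with four colours.
-/

namespace Pool.Agent.Q205.HighlyRec

open Encodable Pool.Agent.Helper446 Pool.Agent.Helper446.Oracle

theorem exists_comp {α β : Type*} [Primcodable α] [Primcodable β] {r : α → β → Prop}
    (hr : REPred fun x : α × β => r x.1 x.2) (h : ∀ a, ∃ b, r a b) :
    ∃ f : α → β, Computable f ∧ ∀ a, r a (f a) := by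
  obtain ⟨g, hg, h1, h2⟩ := RE.uniformize hr
  have hd : ∀ a, (g a).Dom := fun a => (h1 a).2 (h a)
  refine ⟨fun a => (g a).get (hd a), ?_, fun a => h2 a _ (Part.get_mem _)⟩
  exact hg.of_eq_tot fun a => Part.get_mem (hd a)

/-- The bounds of the layers. -/
def M (h : ℕ → ℕ) : ℕ → ℕ
  | 0 => 1
  | n + 1 => M h n + h n + 1

/-- The beginnings of the layers. -/
def bd (h : ℕ → ℕ) : ℕ → ℕ
  | 0 => 0
  | n + 1 => M h (bd h n)

theorem M_comp {h : ℕ → ℕ} (hh : Computable h) : Computable (M h) := by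
  have h1 : Computable fun n : ℕ => (Nat.rec (motive := fun _ => ℕ) 1
      (fun n y => y + h n + 1) n : ℕ) := by
    refine Computable.nat_rec (f := fun n : ℕ => n) (g := fun _ => 1)
      (h := fun _ y => y.2 + h y.1 + 1) Computable.id (Computable.const 1) ?_
    show Computable fun x : ℕ × (ℕ × ℕ) => x.2.2 + h x.2.1 + 1
    fun_prop
  refine h1.of_eq fun n => ?_
  induction n with
  | zero => rfl
  | succ n ih => show _ + h n + 1 = M h n + h n + 1; rw [ih]

theorem bd_comp {h : ℕ → ℕ} (hh : Computable h) : Computable (bd h) := by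
  have hM := M_comp hh
  have h1 : Computable fun n : ℕ => (Nat.rec (motive := fun _ => ℕ) 0
      (fun _ y => M h y) n : ℕ) := by
    refine Computable.nat_rec (f := fun n : ℕ => n) (g := fun _ => 0)
      (h := fun _ y => M h y.2) Computable.id (Computable.const 0) ?_
    show Computable fun x : ℕ × (ℕ × ℕ) => M h x.2.2
    fun_prop
  refine h1.of_eq fun n => ?_
  induction n with
  | zero => rfl
  | succ n ih => show M h _ = M h _; rw [ih]

theorem M_lt (h : ℕ → ℕ) (n : ℕ) : n < M h n := by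
  induction n with
  | zero => exact Nat.one_pos
  | succ n ih => show n + 1 < M h n + h n + 1; omega

theorem M_bd (h : ℕ → ℕ) {x n : ℕ} (hx : x < n) : h x < M h n := by
  induction n with
  | zero => omega
  | succ n ih =>
    show h x < M h n + h n + 1
    rcases Nat.lt_succ_iff_lt_or_eq.1 hx with h1 | rfl
    · have := ih h1; omega
    · omega

theorem bd_lt (h : ℕ → ℕ) (k : ℕ) : bd h k < bd h (k + 1) := M_lt h _

theorem bd_mono (h : ℕ → ℕ) : StrictMono (bd h) := strictMono_nat_of_lt_succ (bd_lt h)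

theorem main (G : SimpleGraph ℕ) (hG : ComputablePred (fun p : ℕ × ℕ => G.Adj p.1 p.2))
    (A : Set ℕ)
    (hA : ∀ B : ℕ × ℕ → Prop, REPred B → REIn A (fun a => ¬ B a) → REPred fun a => ¬ B a)
    (N : ℕ → Finset ℕ) (hN : ∀ x y, G.Adj x y ↔ y ∈ N x)
    (hR : REIn A fun p : ℕ × ℕ => encode (N p.1) = p.2)
    (henc : ∀ s : Finset ℕ, ∀ y ∈ s, y ≤ encode s)
    (hcol : G.Colorable 2) :
    ∃ c : ℕ → ℕ, Computable c ∧ (∀ x, c x < 4) ∧ ∀ x y, G.Adj x y → c x ≠ c y := by
  have hG1 := hG.to_re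
  have hG2 := hG.not.to_re
  have hB : REPred fun p : ℕ × ℕ => ∃ y : ℕ, p.2 < y ∧ G.Adj p.1 y := by
    refine RE.ex (p := fun (p : ℕ × ℕ) (y : ℕ) => p.2 < y ∧ G.Adj p.1 y)
      (RE.and (RE.lt (by fun_prop) (by fun_prop)) ?_)
    exact RE.comp hG1 (f := fun x : (ℕ × ℕ) × ℕ => (x.1.1, x.2)) (by fun_prop)
  have hB2 : REIn A fun p : ℕ × ℕ => ¬ ∃ y : ℕ, p.2 < y ∧ G.Adj p.1 y := by
    have h1 : REIn A fun p : ℕ × ℕ => ∃ m : ℕ, encode (N p.1) = m ∧
        ∀ y < m + 1, y ≤ p.2 ∨ ¬ G.Adj p.1 y := by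
      refine REIn.ex (S := fun (p : ℕ × ℕ) (m : ℕ) => encode (N p.1) = m ∧
        ∀ y < m + 1, y ≤ p.2 ∨ ¬ G.Adj p.1 y) (REIn.and ?_ (REIn.of_re ?_))
      · exact hR.comp (f := fun x : (ℕ × ℕ) × ℕ => (x.1.1, x.2)) (by fun_prop)
      · refine RE.all_lt (p := fun (x : (ℕ × ℕ) × ℕ) (y : ℕ) => y ≤ x.1.2 ∨ ¬ G.Adj x.1.1 y)
          (f := fun x : (ℕ × ℕ) × ℕ => x.2 + 1) (RE.or (RE.le (by fun_prop) (by fun_prop)) ?_)
          (by fun_prop)
        exact RE.comp hG2 (f := fun x : ((ℕ × ℕ) × ℕ) × ℕ => (x.1.1.1, x.2)) (by fun_prop)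
    refine h1.of_eq fun p => ?_
    constructor
    · rintro ⟨m, rfl, h2⟩ ⟨y, h3, h4⟩
      rcases h2 y (Nat.lt_succ_of_le (henc _ y ((hN _ _).1 h4))) with h5 | h5
      · omega
      · exact h5 h4
    · intro h2
      refine ⟨_, rfl, fun y _ => ?_⟩
      by_contra hcon
      push Not at hcon
      exact h2 ⟨y, hcon.1, hcon.2⟩
  have hB3 := hA _ hB hB2
  obtain ⟨h, hh, hhb⟩ := exists_comp (r := fun x b : ℕ => ¬ ∃ y : ℕ, b < y ∧ G.Adj x y) hB3
    (fun x => ⟨encode (N x), fun ⟨y, h1, h2⟩ => by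
      have := henc _ y ((hN _ _).1 h2); omega⟩)
  have hadj : ∀ x y, G.Adj x y → y ≤ h x := fun x y hxy => by
    by_contra hcon
    exact hhb x ⟨y, by omega, hxy⟩
  have hbd := bd_comp hh
  -- the layer of a vertex
  obtain ⟨K, hK, hKb⟩ := exists_comp
    (r := fun x k : ℕ => bd h k ≤ x ∧ x < bd h (k + 1))
    (RE.and (RE.le (by fun_prop) (by fun_prop)) (RE.lt (by fun_prop) (by fun_prop)))
    (fun x => by
      have hex : ∃ k, x < bd h (k + 1) := ⟨x, lt_of_lt_of_le (Nat.lt_succ_self x)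
        ((bd_mono h).id_le (x + 1))⟩
      refine ⟨Nat.find hex, ?_, Nat.find_spec hex⟩
      rcases Nat.eq_zero_or_pos (Nat.find hex) with h0 | h0
      · rw [h0]; exact Nat.zero_le _
      · have := Nat.find_min hex (m := Nat.find hex - 1) (by omega)
        rw [Nat.sub_add_cancel h0] at this
        omega)
  -- finite colourings
  obtain ⟨L, hL, hLp⟩ := exists_comp
    (r := fun (k : ℕ) (l : List Bool) => bd h (k + 1) = l.length ∧
      ∀ i < bd h (k + 1), ∀ j < bd h (k + 1), ¬ G.Adj i j ∨ l[i]? ≠ l[j]?)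
    (by
      refine RE.and (RE.eq (by fun_prop) (by fun_prop)) ?_
      refine RE.all_lt (p := fun (x : ℕ × List Bool) (i : ℕ) =>
        ∀ j < bd h (x.1 + 1), ¬ G.Adj i j ∨ x.2[i]? ≠ x.2[j]?)
        (f := fun x : ℕ × List Bool => bd h (x.1 + 1)) ?_ (by fun_prop)
      refine RE.all_lt (p := fun (x : (ℕ × List Bool) × ℕ) (j : ℕ) =>
        ¬ G.Adj x.2 j ∨ x.1.2[x.2]? ≠ x.1.2[j]?)
        (f := fun x : (ℕ × List Bool) × ℕ => bd h (x.1.1 + 1)) ?_ (by fun_prop)
      refine RE.or ?_ (RE.ne (by fun_prop) (by fun_prop))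
      exact RE.comp hG2 (f := fun x : ((ℕ × List Bool) × ℕ) × ℕ => (x.1.2, x.2)) (by fun_prop))
    (fun k => by
      obtain ⟨col⟩ := hcol
      refine ⟨(List.range (bd h (k + 1))).map fun i => decide (col i = 0), by simp, ?_⟩
      intro i hi j hj
      by_cases hij : G.Adj i j
      · right
        rw [List.getElem?_map, List.getElem?_map, List.getElem?_range hi, List.getElem?_range hj]
        simp only [Option.map_some, ne_eq, Option.some.injEq]
        intro h1
        have h2 := col.valid hij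
        apply h2
        have h3 : (col i = 0 ↔ col j = 0) := by
          rw [← decide_eq_true_eq (p := col i = 0), h1, decide_eq_true_eq]
        have h4 : ∀ a b : Fin 2, (a = 0 ↔ b = 0) → a = b := by decide
        exact h4 _ _ h3
      · left; exact hij)
  refine ⟨fun x => 2 * (K x % 2) + (if (L (K x))[x]? = some true then 1 else 0), ?_, ?_, ?_⟩
  · have h1 : Computable fun x : ℕ => K x % 2 := Primrec.nat_mod.to_comp.comp hK
      (Computable.const 2)
    have h2 : Computable fun x : ℕ => (if (L (K x))[x]? = some true then 1 else 0) :=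
      RE.cite (RE.cp_eq (by fun_prop) (by fun_prop)) (by fun_prop) (by fun_prop)
    fun_prop
  · intro x
    have := Nat.mod_lt (K x) (show 0 < 2 by norm_num)
    simp only
    split_ifs <;> omega
  · intro x y hxy heq
    simp only at heq
    have key : ∀ x y, G.Adj x y → K y ≤ K x + 1 := by
      intro x y hxy
      by_contra hcon
      have h1 := (hKb y).1
      have h2 : bd h (K x + 1 + 1) ≤ bd h (K y) := (bd_mono h).monotone (by omega)
      have h3 : h x < bd h (K x + 1 + 1) := M_bd h (hKb x).2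
      have h4 := hadj x y hxy
      omega
    have h1 := key x y hxy
    have h2 := key y x hxy.symm
    have h3 : K x % 2 = K y % 2 := by split_ifs at heq <;> omega
    have h4 : K x = K y := by omega
    have h5 := (hLp (K x)).2 x (hKb x).2 y (by rw [h4]; exact (hKb y).2)
    rcases h5 with h5 | h5
    · exact h5 hxy
    · have h6 : x < (L (K x)).length := by rw [← (hLp (K x)).1]; exact (hKb x).2
      have h7 : y < (L (K x)).length := by rw [← (hLp (K x)).1, h4]; exact (hKb y).2
      apply h5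
      rw [← h4] at heq
      rw [List.getElem?_eq_getElem h6, List.getElem?_eq_getElem h7] at heq ⊢
      simp only [Option.some.injEq] at heq ⊢
      rcases hb1 : (L (K x))[x] with _ | _ <;> rcases hb2 : (L (K x))[y] with _ | _ <;>
        simp [hb1, hb2] at heq ⊢

end Pool.Agent.Q205.HighlyRec
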