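import Mathlib

/-!
Finite rainbow sets which contain no partners extend to infinite rainbow sets.
-/

namespace Pool.Agent.Q205.Rainbow

/-- Every colour is given to at most two pairs. -/
def Bdd (d : ℕ → ℕ) : Prop :=
  ∀ i, {p : ℕ × ℕ | p.1 < p.2 ∧ d (Nat.pair p.1 p.2) = i}.encard ≤ 2

/-- The colouring is injective on the pairs of `S`. -/
def Rb (d : ℕ → ℕ) (S : Set ℕ) : Prop :=
  ∀ a b a' b', a < b → a' < b' → a ∈ S → b ∈ S → a' ∈ S → b' ∈ S →
    d (Nat.pair a b) = d (Nat.pair a' b') → a = a' ∧ b = b'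

/-- `a` and `b` form pairs of the same colour with almost all numbers. -/
def Part (V : Ultrafilter ℕ) (d : ℕ → ℕ) (a b : ℕ) : Prop :=
  a ≠ b ∧ ∀ᶠ y in (V : Filter ℕ), d (Nat.pair a y) = d (Nat.pair b y)

theorem Part.symm {V : Ultrafilter ℕ} {d : ℕ → ℕ} {a b : ℕ} (h : Part V d a b) : Part V d b a :=
  ⟨h.1.symm, h.2.mono fun _ h => h.symm⟩

theorem three {d : ℕ → ℕ} (hd : Bdd d) {p q r : ℕ × ℕ} (hp : p.1 < p.2) (hq : q.1 < q.2)
    (hr : r.1 < r.2) (h1 : d (Nat.pair p.1 p.2) = d (Nat.pair q.1 q.2))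
    (h2 : d (Nat.pair p.1 p.2) = d (Nat.pair r.1 r.2)) (hpq : p ≠ q) (hpr : p ≠ r) :
    q = r := by
  by_contra hqr
  have h3 : ({p, q, r} : Set (ℕ × ℕ)) ⊆
      {x : ℕ × ℕ | x.1 < x.2 ∧ d (Nat.pair x.1 x.2) = d (Nat.pair p.1 p.2)} := by
    rintro x (rfl | rfl | rfl)
    · exact ⟨hp, rfl⟩
    · exact ⟨hq, h1.symm⟩
    · exact ⟨hr, h2.symm⟩
  have h4 := (Set.encard_le_encard h3).trans (hd _)
  have h5 : ({p, q, r} : Set (ℕ × ℕ)).encard = 3 := Set.encard_eq_three.2
    ⟨p, q, r, hpq, hpr, hqr, rfl⟩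
  rw [h5] at h4
  exact absurd h4 (by norm_num)

variable {V : Ultrafilter ℕ} (hV : (V : Filter ℕ) ≤ Filter.cofinite)

include hV in
theorem ev_ge (m : ℕ) : ∀ᶠ y in (V : Filter ℕ), m ≤ y := by
  refine hV ?_
  rw [Nat.cofinite_eq_atTop]
  exact Filter.eventually_ge_atTop m

include hV in
theorem part_unique {d : ℕ → ℕ} (hd : Bdd d) {a b c : ℕ} (h1 : Part V d a b)
    (h2 : Part V d a c) : b = c := by
  obtain ⟨y, ⟨h3, h4⟩, h5⟩ := ((h1.2.and h2.2).and (ev_ge hV (a + b + c + 1))).exists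
  have h6 := three hd (p := (a, y)) (q := (b, y)) (r := (c, y)) (by simp only; omega)
    (by simp only; omega) (by simp only; omega) h3 h4
    (fun h => h1.1 (Prod.ext_iff.1 h).1) (fun h => h2.1 (Prod.ext_iff.1 h).1)
  exact (Prod.ext_iff.1 h6).1

/-- Finite rainbow sets without partners. -/
structure Nice (V : Ultrafilter ℕ) (d : ℕ → ℕ) (Q : ℕ → ℕ → Prop) (F : Finset ℕ) : Prop where
  rb : Rb d F
  part : ∀ a ∈ F, ∀ b ∈ F, ¬ Part V d a b
  q : ∀ a ∈ F, ∀ b ∈ F, a ≠ b → ¬ Q a b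

include hV in
theorem step {d : ℕ → ℕ} (hd : Bdd d) {Q : ℕ → ℕ → Prop}
    (hQ : ∀ a, {b | Q a b ∨ Q b a}.Finite) {F : Finset ℕ} (hF : Nice V d Q F) (m : ℕ) :
    ∃ y, m ≤ y ∧ (∀ x ∈ F, x < y) ∧ Nice V d Q (insert y F) := by
  classical
  have e1 : ∀ᶠ y in (V : Filter ℕ), ∀ x ∈ F, x < y :=
    (Filter.eventually_all_finset F).2 fun x _ => ev_ge hV (x + 1)
  have e2 : ∀ᶠ y in (V : Filter ℕ), ∀ x ∈ F, ∀ x' ∈ F, x ≠ x' →
      d (Nat.pair x y) ≠ d (Nat.pair x' y) := by
    refine (Filter.eventually_all_finset F).2 fun x hx =>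
      (Filter.eventually_all_finset F).2 fun x' hx' => ?_
    by_cases hxx : x = x'
    · exact Filter.Eventually.of_forall fun y h => absurd hxx h
    · have h1 : ¬ ∀ᶠ y in (V : Filter ℕ), d (Nat.pair x y) = d (Nat.pair x' y) :=
        fun h => hF.part x hx x' hx' ⟨hxx, h⟩
      exact (Ultrafilter.eventually_not.2 h1).mono fun y hy _ => hy
  have e3 : ∀ᶠ y in (V : Filter ℕ), ∀ p ∈ F ×ˢ F, p.1 < p.2 → ∀ x ∈ F,
      x < y → d (Nat.pair x y) ≠ d (Nat.pair p.1 p.2) := by
    refine (Filter.eventually_all_finset _).2 fun p _ => ?_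
    by_cases hp : p.1 < p.2
    · have h1 : ∀ᶠ y in (V : Filter ℕ), ∀ x ∈ F, x < y →
          d (Nat.pair x y) ≠ d (Nat.pair p.1 p.2) := by
        refine (Filter.eventually_all_finset _).2 fun x _ => ?_
        have h2 : {y | x < y ∧ d (Nat.pair x y) = d (Nat.pair p.1 p.2)}.Finite := by
          have h3 : {q : ℕ × ℕ | q.1 < q.2 ∧ d (Nat.pair q.1 q.2) =
              d (Nat.pair p.1 p.2)}.Finite :=
            Set.finite_of_encard_le_coe (k := 2) (hd _)
          refine (h3.image Prod.snd).subset ?_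
          rintro y ⟨h4, h5⟩
          exact ⟨(x, y), ⟨h4, h5⟩, rfl⟩
        have h6 := hV (h2.compl_mem_cofinite)
        filter_upwards [h6] with y hy hxy hcon
        exact hy ⟨hxy, hcon⟩
      exact h1.mono fun y hy _ => hy
    · exact Filter.Eventually.of_forall fun y h => absurd h hp
  have e4 : ∀ᶠ y in (V : Filter ℕ), ∀ x ∈ F, ¬ Part V d x y := by
    refine (Filter.eventually_all_finset _).2 fun x _ => ?_
    have h2 : {y | Part V d x y}.Finite := by
      refine Set.Subsingleton.finite ?_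
      intro b hb c hc
      exact part_unique hV hd hb hc
    have h6 := hV (h2.compl_mem_cofinite)
    filter_upwards [h6] with y hy hcon
    exact hy hcon
  have e5 : ∀ᶠ y in (V : Filter ℕ), ∀ x ∈ F, ¬ (Q x y ∨ Q y x) := by
    refine (Filter.eventually_all_finset _).2 fun x _ => ?_
    have h6 := hV ((hQ x).compl_mem_cofinite)
    filter_upwards [h6] with y hy hcon
    exact hy hcon
  obtain ⟨y, hy⟩ := (e1.and (e2.and (e3.and (e4.and (e5.and (ev_ge hV m)))))).exists
  obtain ⟨h1, h2, h3, h4, h5, h6⟩ := hy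
  refine ⟨y, h6, h1, ⟨?_, ?_, ?_⟩⟩
  · intro a b a' b' hab hab' ha hb ha' hb' heq
    simp only [Finset.coe_insert, Set.mem_insert_iff, Finset.mem_coe] at ha hb ha' hb'
    have ha2 : a ∈ F := by
      rcases ha with rfl | ha
      · rcases hb with rfl | hb
        · omega
        · have := h1 b hb; omega
      · exact ha
    have ha2' : a' ∈ F := by
      rcases ha' with rfl | ha'
      · rcases hb' with rfl | hb'
        · omega
        · have := h1 b' hb'; omega
      · exact ha'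
    rcases hb with rfl | hb
    · rcases hb' with rfl | hb'
      · by_contra hcon
        exact h2 a ha2 a' ha2' (fun h => hcon ⟨h, rfl⟩) heq
      · exact absurd heq (h3 (a', b') (Finset.mem_product.2 ⟨ha2', hb'⟩) hab' a ha2 hab)
    · rcases hb' with rfl | hb'
      · exact absurd heq.symm (h3 (a, b) (Finset.mem_product.2 ⟨ha2, hb⟩) hab a' ha2' hab')
      · exact hF.rb a b a' b' hab hab' ha2 hb ha2' hb' heq
  · intro a ha b hb hp
    rcases Finset.mem_insert.1 ha with ha1 | ha1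
    · rcases Finset.mem_insert.1 hb with hb1 | hb1
      · exact hp.1 (ha1.trans hb1.symm)
      · rw [ha1] at hp; exact h4 b hb1 hp.symm
    · rcases Finset.mem_insert.1 hb with hb1 | hb1
      · rw [hb1] at hp; exact h4 a ha1 hp
      · exact hF.part a ha1 b hb1 hp
  · intro a ha b hb hne hp
    rcases Finset.mem_insert.1 ha with ha1 | ha1
    · rcases Finset.mem_insert.1 hb with hb1 | hb1
      · exact hne (ha1.trans hb1.symm)
      · rw [ha1] at hp; exact h5 b hb1 (Or.inr hp)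
    · rcases Finset.mem_insert.1 hb with hb1 | hb1
      · rw [hb1] at hp; exact h5 a ha1 (Or.inl hp)
      · exact hF.q a ha1 b hb1 hne hp

include hV in
/-- Extension to an infinite rainbow set. -/
theorem extend {d : ℕ → ℕ} (hd : Bdd d) {Q : ℕ → ℕ → Prop}
    (hQ : ∀ a, {b | Q a b ∨ Q b a}.Finite) {F : Finset ℕ} (hF : Nice V d Q F) (m : ℕ) :
    ∃ R : Set ℕ, R.Infinite ∧ Rb d R ∧ (∀ x < m, x ∈ R ↔ x ∈ F) ∧
      ∀ a ∈ R, ∀ b ∈ R, a ≠ b → ¬ Q a b := by
  classical
  have hst : ∀ (G : Finset ℕ) (k : ℕ), Nice V d Q G →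
      ∃ y, m + k ≤ y ∧ (∀ x ∈ G, x < y) ∧ Nice V d Q (insert y G) := fun G k hG =>
    step hV hd hQ hG (m + k)
  choose! y hy1 hy2 hy3 using hst
  let G : ℕ → Finset ℕ := fun k => Nat.rec F (fun k G => insert (y G k) G) k
  have hGs : ∀ k, G (k + 1) = insert (y (G k) k) (G k) := fun k => rfl
  have hGn : ∀ k, Nice V d Q (G k) := by
    intro k
    induction k with
    | zero => exact hF
    | succ k ih => rw [hGs]; exact hy3 _ _ ih
  have hGm : Monotone G := by
    apply monotone_nat_of_le_succ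
    intro k
    rw [hGs]
    exact Finset.subset_insert _ _
  have hcommon : ∀ (l : List ℕ), (∀ x ∈ l, ∃ k, x ∈ G k) → ∃ k, ∀ x ∈ l, x ∈ G k := by
    intro l
    induction l with
    | nil => intro _; exact ⟨0, by simp⟩
    | cons a l ih =>
      intro h
      obtain ⟨k1, h1⟩ := h a (by simp)
      obtain ⟨k2, h2⟩ := ih fun x hx => h x (List.mem_cons_of_mem _ hx)
      refine ⟨max k1 k2, fun x hx => ?_⟩
      rcases List.mem_cons.1 hx with rfl | hx
      · exact hGm (le_max_left _ _) h1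
      · exact hGm (le_max_right _ _) (h2 x hx)
  refine ⟨{x | ∃ k, x ∈ G k}, ?_, ?_, ?_, ?_⟩
  · refine Set.infinite_of_not_bddAbove ?_
    rintro ⟨B, hB⟩
    have h1 : y (G (B + 1)) (B + 1) ∈ {x | ∃ k, x ∈ G k} :=
      ⟨B + 2, by rw [hGs]; exact Finset.mem_insert_self _ _⟩
    have h2 := hB h1
    have h3 := hy1 (G (B + 1)) (B + 1) (hGn (B + 1))
    omega
  · intro a b a' b' hab hab' ha hb ha' hb' heq
    obtain ⟨k, hk⟩ := hcommon [a, b, a', b'] (by
      intro x hx
      simp only [List.mem_cons, List.not_mem_nil, or_false] at hx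
      rcases hx with rfl | rfl | rfl | rfl
      exacts [ha, hb, ha', hb'])
    exact (hGn k).rb a b a' b' hab hab' (hk a (by simp)) (hk b (by simp)) (hk a' (by simp))
      (hk b' (by simp)) heq
  · intro x hx
    constructor
    · rintro ⟨k, hk⟩
      induction k with
      | zero => exact hk
      | succ k ih =>
        rw [hGs] at hk
        rcases Finset.mem_insert.1 hk with rfl | hk
        · have := hy1 (G k) k (hGn _); omega
        · exact ih hk
    · intro h; exact ⟨0, h⟩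
  · intro a ha b hb hne
    obtain ⟨k, hk⟩ := hcommon [a, b] (by
      intro x hx
      simp only [List.mem_cons, List.not_mem_nil, or_false] at hx
      rcases hx with rfl | rfl
      exacts [ha, hb])
    exact (hGn k).q a (hk a (by simp)) b (hk b (by simp)) hne

/-- Let `d' n` converge to `d`.  There is an infinite rainbow set for `d` such that all its initial
segments extend to infinite rainbow sets for `d' n` for arbitrarily large `n`. -/
theorem main {d : ℕ → ℕ} (hd : Bdd d) {d' : ℕ → ℕ → ℕ} (hd' : ∀ n, Bdd (d' n))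
    (hlim : ∀ k, ∃ N, ∀ n, N ≤ n → d' n k = d k) :
    ∃ R : Set ℕ, R.Infinite ∧ Rb d R ∧ ∀ m N, ∃ n, N ≤ n ∧ ∃ R' : Set ℕ, R'.Infinite ∧
      Rb (d' n) R' ∧ ∀ x < m, x ∈ R' ↔ x ∈ R := by
  classical
  have hV : (Filter.hyperfilter ℕ : Filter ℕ) ≤ Filter.cofinite := Filter.hyperfilter_le_cofinite
  let Q : ℕ → ℕ → Prop := fun a b =>
    ∀ᶠ n in (Filter.hyperfilter ℕ : Filter ℕ), Part (Filter.hyperfilter ℕ) (d' n) a b
  have hQs : ∀ a b, Q a b → Q b a := fun a b h => h.mono fun n h => h.symm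
  have hQ : ∀ a, {b | Q a b ∨ Q b a}.Finite := by
    intro a
    refine Set.Subsingleton.finite ?_
    intro b hb c hc
    have hb' : Q a b := hb.elim id (hQs _ _)
    have hc' : Q a c := hc.elim id (hQs _ _)
    obtain ⟨n, h1, h2⟩ := (hb'.and hc').exists
    exact part_unique hV (hd' n) h1 h2
  have hempty : Nice (Filter.hyperfilter ℕ) d Q ∅ :=
    ⟨fun a b a' b' _ _ ha => absurd ha (by simp), fun a ha => absurd ha (by simp),
      fun a ha => absurd ha (by simp)⟩
  obtain ⟨R, hR1, hR2, -, hR3⟩ := extend hV hd hQ hempty 0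
  refine ⟨R, hR1, hR2, fun m N => ?_⟩
  let F : Finset ℕ := (Finset.range m).filter fun x => x ∈ R
  have hFR : ∀ x ∈ F, x ∈ R := fun x hx => (Finset.mem_filter.1 hx).2
  have e1 : ∀ᶠ n in (Filter.hyperfilter ℕ : Filter ℕ), ∀ a ∈ F, ∀ b ∈ F,
      ¬ Part (Filter.hyperfilter ℕ) (d' n) a b := by
    refine (Filter.eventually_all_finset F).2 fun a ha =>
      (Filter.eventually_all_finset F).2 fun b hb => ?_
    by_cases hab : a = b
    · exact Filter.Eventually.of_forall fun n h => h.1 hab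
    · exact Ultrafilter.eventually_not.2 (hR3 a (hFR a ha) b (hFR b hb) hab)
  have e2 : ∀ᶠ n in (Filter.hyperfilter ℕ : Filter ℕ), ∀ p ∈ F ×ˢ F,
      d' n (Nat.pair p.1 p.2) = d (Nat.pair p.1 p.2) := by
    refine (Filter.eventually_all_finset _).2 fun p _ => ?_
    obtain ⟨N', hN'⟩ := hlim (Nat.pair p.1 p.2)
    exact (ev_ge hV N').mono fun n hn => hN' n hn
  obtain ⟨n, h1, h2, h3⟩ := (e1.and (e2.and (ev_ge hV N))).exists
  have hnice : Nice (Filter.hyperfilter ℕ) (d' n) (fun _ _ => False) F := by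
    refine ⟨?_, h1, fun _ _ _ _ _ h => h⟩
    intro a b a' b' hab hab' ha hb ha' hb' heq
    rw [h2 (a, b) (Finset.mem_product.2 ⟨ha, hb⟩), h2 (a', b') (Finset.mem_product.2
      ⟨ha', hb'⟩)] at heq
    exact hR2 a b a' b' hab hab' (hFR a ha) (hFR b hb) (hFR a' ha') (hFR b' hb') heq
  obtain ⟨R', hR'1, hR'2, hR'3, -⟩ := extend hV (hd' n) (Q := fun _ _ => False)
    (fun a => by simp) hnice m
  refine ⟨n, h3, R', hR'1, hR'2, fun x hx => ?_⟩
  rw [hR'3 x hx, Finset.mem_filter, Finset.mem_range]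
  exact ⟨fun h => h.2, fun h => ⟨hx, h⟩⟩

end Pool.Agent.Q205.Rainbow
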