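import Pool.Agent.Y579.HN.Reduce

/-!
A colouring of the natural numbers coding an eventually constant sequence `f`, all of whose
difference-homogeneous sets have only differences beyond the last change of `f`.
-/

namespace Pool.Agent.Q205.Subt

open Pool.Agent.H190R3.Wei

/-- The beginning of the maximal block of `f` which ends in `z`. -/
noncomputable def lc (f : ℕ → Fin 3) (z : ℕ) : ℕ := sInf {n | ∀ k, n ≤ k → k ≤ z → f k = f z}

open Classical in
/-- The colouring: the multiples of a number larger than the last change have colour `0`. -/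
noncomputable def cf (f : ℕ → Fin 3) (z : ℕ) : ℕ := if (lc f z + 1) ∣ z then 0 else 1

theorem lc_congr {f f' : ℕ → Fin 3} {z : ℕ} (h : ∀ k ≤ z, f' k = f k) : lc f' z = lc f z := by
  unfold lc
  congr 1
  ext n
  constructor
  · intro h1 k hk hkz
    rw [← h k hkz, ← h z le_rfl]
    exact h1 k hk hkz
  · intro h1 k hk hkz
    rw [h k hkz, h z le_rfl]
    exact h1 k hk hkz

theorem cf_congr {f f' : ℕ → Fin 3} {z : ℕ} (h : ∀ k ≤ z, f' k = f k) : cf f' z = cf f z := by
  unfold cf
  rw [lc_congr h]

theorem cf_lt (f : ℕ → Fin 3) (z : ℕ) : cf f z < 2 := by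
  unfold cf
  split_ifs <;> omega

/-- An eventually constant sequence has a last change `N`, and the colouring is given by the
multiples of `N + 1` beyond `N`. -/
theorem exists_last {f : ℕ → Fin 3} (hf : ∃ (a : Fin 3) (n : ℕ), ∀ k, n ≤ k → f k = a) :
    ∃ N, (∀ k, N ≤ k → f k = f N) ∧ ∀ z, N ≤ z → cf f z = if (N + 1) ∣ z then 0 else 1 := by
  classical
  have hex : ∃ n, ∀ k, n ≤ k → f k = f n := by
    obtain ⟨a, n, h⟩ := hf
    exact ⟨n, fun k hk => by rw [h k hk, h n le_rfl]⟩
  refine ⟨Nat.find hex, Nat.find_spec hex, fun z hz => ?_⟩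
  have h1 : lc f z = Nat.find hex := by
    apply le_antisymm
    · apply Nat.sInf_le
      intro k hk _
      rw [Nat.find_spec hex k hk, Nat.find_spec hex z hz]
    · apply Nat.find_min' hex
      have h2 : lc f z ∈ {n | ∀ k, n ≤ k → k ≤ z → f k = f z} :=
        Nat.sInf_mem ⟨z, fun k hk hk' => by rw [le_antisymm hk' hk]⟩
      have h3 : ∀ k, lc f z ≤ k → f k = f z := by
        intro k hk
        rcases le_total k z with h | h
        · exact h2 k hk h
        · rw [Nat.find_spec hex k (hz.trans h), Nat.find_spec hex z hz]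
      intro k hk
      rw [h3 k hk, h3 _ le_rfl]
  unfold cf
  rw [h1]

/-- All differences of a homogeneous set are beyond the last change. -/
theorem differences {y : ℕ → ℕ} {N : ℕ} (hy : ∀ z, N ≤ z → y z = if (N + 1) ∣ z then 0 else 1)
    {H : Set ℕ} (hH : H.Infinite) {i : ℕ} (hi : ∀ a ∈ H, ∀ b ∈ H, a < b → y (b - a) = i)
    {a b : ℕ} (ha : a ∈ H) (hb : b ∈ H) (hab : a < b) : N < b - a := by
  -- the colour is zero
  have h0 : i = 0 := by
    -- a sequence of elements with large gaps
    have hex : ∀ n : ℕ, ∃ m ∈ H, n + N < m := fun n => hH.exists_gt (n + N)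
    choose g hg1 hg2 using hex
    let t : ℕ → ℕ := fun n => Nat.rec (g 0) (fun _ x => g x) n
    have ht : ∀ n, t (n + 1) = g (t n) := fun n => rfl
    have htH : ∀ n, t n ∈ H := by
      intro n
      cases n with
      | zero => exact hg1 0
      | succ n => exact hg1 _
    have htm : ∀ m n, m < n → t m + N < t n := by
      intro m n hmn
      induction n, hmn using Nat.le_induction with
      | base => rw [ht]; exact hg2 _
      | succ n _ ih => rw [ht]; have := hg2 (t n); omega
    obtain ⟨m, n, hmn, hmod⟩ : ∃ m n, m ≠ n ∧ t m % (N + 1) = t n % (N + 1) := by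
      have h1 : ¬ Function.Injective (fun n => (⟨t n % (N + 1), Nat.mod_lt _ (by omega)⟩ :
          Fin (N + 1))) := not_injective_infinite_finite _
      simp only [Function.Injective, not_forall] at h1
      obtain ⟨m, n, h2, h3⟩ := h1
      exact ⟨m, n, h3, by simpa using h2⟩
    have key : ∀ m n, m < n → t m % (N + 1) = t n % (N + 1) → i = 0 := by
      intro m n hmn hmod
      have h1 := htm m n hmn
      rw [← hi _ (htH m) _ (htH n) (by omega), hy _ (by omega), if_pos]
      exact (Nat.modEq_iff_dvd' (by omega)).1 hmod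
    rcases lt_or_gt_of_ne hmn with h | h
    · exact key m n h hmod
    · exact key n m h hmod.symm
  subst h0
  obtain ⟨t, ht, hbt⟩ := hH.exists_gt (b + N)
  have h1 : ∀ x ∈ H, x ≤ b → (N + 1) ∣ t - x := by
    intro x hx hxb
    have h2 := hi x hx t ht (by omega)
    rw [hy _ (by omega)] at h2
    by_contra hcon
    rw [if_neg hcon] at h2
    omega
  have h2 := h1 a ha hab.le
  have h3 := h1 b hb le_rfl
  have h4 : (N + 1) ∣ b - a := by
    have := Nat.dvd_sub h2 h3
    have e : t - a - (t - b) = b - a := by omega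
    rwa [e] at this
  have := Nat.le_of_dvd (by omega) h4
  omega

/-- The second position of a `1`. -/
noncomputable def sb (τ : List ℕ) : ℕ :=
  sInf {b | b < τ.length ∧ τ.getD b 0 = 1 ∧ ∃ a < b, τ.getD a 0 = 1}

/-- The first position of a `1`. -/
noncomputable def sa (τ : List ℕ) : ℕ := sInf {a | τ.getD a 0 = 1}

open Classical in
/-- The word function which reads the first two elements `a < b` of a set and prints the
characteristic function of the numbers `≥ b - a`. -/
noncomputable def out (τ : List ℕ) : List ℕ :=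
  if ∃ b, b < τ.length ∧ τ.getD b 0 = 1 ∧ ∃ a < b, τ.getD a 0 = 1 then
    (List.range τ.length).map fun k => if sb τ - sa τ ≤ k then 1 else 0
  else []

theorem out_init {H : ℕ → ℕ} (hH : {n | H n = 1}.Infinite) :
    ∃ a b, a < b ∧ H a = 1 ∧ H b = 1 ∧ ∀ n,
      out (init H n) = if b < n then init (fun k => if b - a ≤ k then 1 else 0) n else [] := by
  classical
  have hex : ∃ b, H b = 1 ∧ ∃ a < b, H a = 1 := by
    obtain ⟨a, ha⟩ := hH.nonempty
    obtain ⟨b, hb, hab⟩ := hH.exists_gt a
    exact ⟨b, hb, a, hab, ha⟩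
  obtain ⟨hb1, a0, ha0, ha1⟩ := Nat.find_spec hex
  have hex2 : ∃ a, H a = 1 := ⟨a0, ha1⟩
  have hab : Nat.find hex2 < Nat.find hex := lt_of_le_of_lt (Nat.find_min' hex2 ha1) ha0
  refine ⟨Nat.find hex2, Nat.find hex, hab, Nat.find_spec hex2, hb1, fun n => ?_⟩
  have hlen : (init H n).length = n := length_init H n
  by_cases hn : Nat.find hex < n
  · rw [if_pos hn]
    have hgd : ∀ k < n, (init H n).getD k 0 = H k := fun k hk => init_getD H n k 0 hk
    have h : ∃ b, b < (init H n).length ∧ (init H n).getD b 0 = 1 ∧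
        ∃ a < b, (init H n).getD a 0 = 1 :=
      ⟨Nat.find hex, by rw [hlen]; exact hn, by rw [hgd _ hn]; exact hb1, a0, ha0,
        by rw [hgd _ (by omega)]; exact ha1⟩
    have e1 : sb (init H n) = Nat.find hex := by
      apply le_antisymm
      · apply Nat.sInf_le
        exact ⟨by rw [hlen]; exact hn, by rw [hgd _ hn]; exact hb1, a0, ha0,
          by rw [hgd _ (by omega)]; exact ha1⟩
      · apply Nat.find_min' hex
        obtain ⟨h0, h1, a, h2, h3⟩ : sb (init H n) ∈ {b | b < (init H n).length ∧
          (init H n).getD b 0 = 1 ∧ ∃ a < b, (init H n).getD a 0 = 1} := Nat.sInf_mem h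
        rw [hlen] at h0
        rw [hgd _ h0] at h1
        rw [hgd _ (by omega)] at h3
        exact ⟨h1, a, h2, h3⟩
    have e2 : sa (init H n) = Nat.find hex2 := by
      apply le_antisymm
      · apply Nat.sInf_le
        show (init H n).getD (Nat.find hex2) 0 = 1
        rw [hgd _ (by omega)]
        exact Nat.find_spec hex2
      · apply Nat.find_min' hex2
        have h1 : sa (init H n) ∈ {a | (init H n).getD a 0 = 1} := Nat.sInf_mem
          ⟨Nat.find hex2, by
            show (init H n).getD (Nat.find hex2) 0 = 1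
            rw [hgd _ (by omega)]
            exact Nat.find_spec hex2⟩
        have h2 : sa (init H n) ≤ Nat.find hex2 := by
          apply Nat.sInf_le
          show (init H n).getD (Nat.find hex2) 0 = 1
          rw [hgd _ (by omega)]
          exact Nat.find_spec hex2
        have h3 : (init H n).getD (sa (init H n)) 0 = 1 := h1
        rw [hgd _ (by omega)] at h3
        exact h3
    unfold out
    rw [if_pos h, e1, e2, hlen]
    rfl
  · rw [if_neg hn]
    unfold out
    rw [if_neg]
    rintro ⟨b, h0, h1, a, h2, h3⟩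
    rw [hlen] at h0
    apply hn
    refine lt_of_le_of_lt (Nat.find_min' hex ⟨?_, a, h2, ?_⟩) h0
    · rw [← h1]; exact (init_getD H n _ 0 h0).symm
    · rw [← h3]; exact (init_getD H n _ 0 (h2.trans h0)).symm

/-- The word function of a composition with `out`. -/
theorem maps_out {ψ : List ℕ → List ℕ} {x H : ℕ → ℕ} (h : Maps ψ x H)
    (hH : {n | H n = 1}.Infinite) :
    ∃ a b, a < b ∧ H a = 1 ∧ H b = 1 ∧
      Maps (fun σ => out (ψ σ)) x (fun k => if b - a ≤ k then 1 else 0) := by
  obtain ⟨a, b, hab, ha, hb, hout⟩ := out_init hH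
  refine ⟨a, b, hab, ha, hb, fun m => ?_, fun n => ?_⟩
  · show out (ψ (init x m)) = init _ (out (ψ (init x m))).length
    rw [h.1 m, hout]
    split_ifs with h1
    · rw [length_init]
    · simp [init]
  · obtain ⟨m, hm⟩ := h.2 (n + b + 1)
    refine ⟨m, ?_⟩
    show n ≤ (out (ψ (init x m))).length
    rw [h.1 m, hout, if_pos (by omega), length_init]
    omega

end Pool.Agent.Q205.Subt
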