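import Mathlib

/-!
Every finite set is an initial segment of a solution of a given instance of the thin version of
Hindman's theorem for sums of exactly two elements.
-/

namespace Pool.Agent.Q205.ThinExt

/-- A sequence which meets finitely many requirements at each stage. -/
theorem exists_seq (U : Ultrafilter ℕ) (hU : (U : Filter ℕ) ≤ Filter.cofinite) (P : ℕ → Prop)
    (Q : ℕ → ℕ → Prop) (hP : ∀ᶠ t in (U : Filter ℕ), P t)
    (hQ : ∀ x, P x → ∀ᶠ t in (U : Filter ℕ), Q x t) (n : ℕ) :
    ∃ t : ℕ → ℕ, StrictMono t ∧ (∀ i, n ≤ t i) ∧ (∀ i, P (t i)) ∧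
      ∀ i j, i < j → Q (t i) (t j) := by
  have hinf : ∀ m : ℕ, ∀ᶠ t in (U : Filter ℕ), m ≤ t := by
    intro m
    refine hU ?_
    rw [Nat.cofinite_eq_atTop]
    exact Filter.eventually_ge_atTop m
  -- lists of admissible elements
  have step : ∀ l : List ℕ, (∀ x ∈ l, P x) → ∃ t, P t ∧ n ≤ t ∧ ∀ x ∈ l, x < t ∧ Q x t := by
    intro l hl
    have h1 : ∀ᶠ t in (U : Filter ℕ), ∀ x ∈ l, x < t ∧ Q x t := by
      rw [Filter.eventually_iff]
      have h2 : ∀ x ∈ l, ∀ᶠ t in (U : Filter ℕ), x < t ∧ Q x t := fun x hx =>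
        (hinf (x + 1)).and (hQ x (hl x hx))
      clear hl
      induction l with
      | nil => simp
      | cons a l ih =>
        have h3 := h2 a (by simp)
        have h4 := ih (fun x hx => h2 x (List.mem_cons_of_mem _ hx))
        filter_upwards [h3, h4] with t h5 h6
        intro x hx
        rcases List.mem_cons.1 hx with rfl | h
        · exact h5
        · exact h6 x h
    obtain ⟨t, ht⟩ := ((hP.and (hinf n)).and h1).exists
    exact ⟨t, ht.1.1, ht.1.2, ht.2⟩
  choose! g hg using step
  let L : ℕ → List ℕ := fun k => Nat.rec [] (fun _ l => g l :: l) k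
  have hLs : ∀ k, L (k + 1) = g (L k) :: L k := fun k => rfl
  have hLP : ∀ k, ∀ x ∈ L k, P x := by
    intro k
    induction k with
    | zero => intro x hx; exact absurd hx (by simp [L])
    | succ k ih =>
      intro x hx
      rw [hLs] at hx
      rcases List.mem_cons.1 hx with rfl | h
      · exact (hg _ ih).1
      · exact ih x h
  have hmem : ∀ i j, i < j → g (L i) ∈ L j := by
    intro i j hij
    induction j, hij using Nat.le_induction with
    | base => rw [hLs]; exact List.mem_cons_self
    | succ j _ ih => rw [hLs]; exact List.mem_cons_of_mem _ ih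
  refine ⟨fun i => g (L i), ?_, ?_, ?_, ?_⟩
  · intro i j hij
    exact ((hg _ (hLP j)).2.2 _ (hmem i j hij)).1
  · intro i; exact (hg _ (hLP i)).2.1
  · intro i; exact (hg _ (hLP i)).1
  · intro i j hij
    exact ((hg _ (hLP j)).2.2 _ (hmem i j hij)).2

/-- The limit of a colouring with finitely many colours along an ultrafilter. -/
theorem exists_lim (U : Ultrafilter ℕ) {N : ℕ} (f : ℕ → ℕ) (hf : ∀ t, f t < N) :
    ∃ j, j < N ∧ ∀ᶠ t in (U : Filter ℕ), f t = j := by
  have h1 : ∀ᶠ t in (U : Filter ℕ), ∃ j ∈ Finset.range N, f t = j :=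
    Filter.Eventually.of_forall fun t => ⟨f t, Finset.mem_range.2 (hf t), rfl⟩
  have h2 : ∃ j ∈ Finset.range N, ∀ᶠ t in (U : Filter ℕ), f t = j := by
    have := (Ultrafilter.eventually_exists_mem_iff (is := (Finset.range N : Set ℕ))
      (P := fun j t => f t = j) (Finset.finite_toSet _)).1 (by simpa using h1)
    simpa using this
  obtain ⟨j, hj, h3⟩ := h2
  exact ⟨j, Finset.mem_range.1 hj, h3⟩

/-- **Extension.**  For every colouring `d` and every finite set `F` of numbers below `n` there is
an infinite set `S` with the same elements below `n` as `F`, such that `d` omits a colour on the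
sums of two distinct elements of `S`. -/
theorem extend (d : ℕ → ℕ) (n : ℕ) (F : Finset ℕ) (hF : ∀ x ∈ F, x < n) :
    ∃ S : Set ℕ, S.Infinite ∧ (∀ x < n, x ∈ S ↔ x ∈ F) ∧
      ∃ k, ∀ a ∈ S, ∀ b ∈ S, a < b → d (a + b) ≠ k := by
  classical
  let N : ℕ := (F ×ˢ F).card + F.card + 3
  let m : ℕ → ℕ := fun z => min (d z) (N - 1)
  have hm : ∀ z, m z < N := fun z => by
    have : m z ≤ N - 1 := min_le_right _ _
    omega
  obtain ⟨U, hU⟩ : ∃ U : Ultrafilter ℕ, (U : Filter ℕ) ≤ Filter.cofinite :=
    ⟨Filter.hyperfilter ℕ, Filter.hyperfilter_le_cofinite⟩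
  have h1 : ∀ x, ∃ j, j < N ∧ ∀ᶠ t in (U : Filter ℕ), m (x + t) = j := fun x =>
    exists_lim U (fun t => m (x + t)) (fun t => hm _)
  choose h hhN hh using h1
  obtain ⟨j0, hj0, hj⟩ := exists_lim U h hhN
  obtain ⟨t, htm, htn, htP, htQ⟩ := exists_seq U hU
    (fun x => h x = j0 ∧ ∀ f ∈ F, m (f + x) = h f) (fun x y => m (x + y) = j0) (by
      refine hj.and ?_
      have : ∀ f ∈ F, ∀ᶠ x in (U : Filter ℕ), m (f + x) = h f := fun f _ => hh f
      exact (Filter.eventually_all_finset F).2 this) (by
      rintro x ⟨hx, -⟩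
      filter_upwards [hh x] with y hy
      rw [hy, hx]) n
  refine ⟨(F : Set ℕ) ∪ Set.range t, ?_, ?_, ?_⟩
  · exact (Set.infinite_range_of_injective htm.injective).mono Set.subset_union_right
  · intro x hx
    constructor
    · rintro (hx1 | ⟨i, rfl⟩)
      · exact hx1
      · exact absurd (htn i) (by omega)
    · intro hx1; exact Or.inl hx1
  · let C : Finset ℕ := (F ×ˢ F).image (fun p => m (p.1 + p.2)) ∪ (F.image h ∪ {j0})
    have hC : C.card < N - 1 := by
      have e1 := Finset.card_union_le ((F ×ˢ F).image (fun p => m (p.1 + p.2)))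
        (F.image h ∪ {j0})
      have e2 := Finset.card_union_le (F.image h) {j0}
      have e3 : ((F ×ˢ F).image (fun p => m (p.1 + p.2))).card ≤ (F ×ˢ F).card :=
        Finset.card_image_le
      have e4 : (F.image h).card ≤ F.card := Finset.card_image_le
      have e5 : ({j0} : Finset ℕ).card = 1 := Finset.card_singleton _
      have e6 : N - 1 = (F ×ˢ F).card + F.card + 2 := rfl
      have e7 : C.card = ((F ×ˢ F).image (fun p => m (p.1 + p.2)) ∪ (F.image h ∪ {j0})).card := rfl
      rw [e6, e7]
      omega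
    obtain ⟨k, hk1, hk2⟩ : ∃ k ∈ Finset.range (N - 1), k ∉ C := by
      by_contra hcon
      push Not at hcon
      have := Finset.card_le_card (show Finset.range (N - 1) ⊆ C from hcon)
      rw [Finset.card_range] at this
      omega
    rw [Finset.mem_range] at hk1
    refine ⟨k, ?_⟩
    have key : ∀ z, m z ∈ C → d z ≠ k := by
      rintro z hz rfl
      apply hk2
      have : m z = d z := min_eq_left (by omega)
      rwa [this] at hz
    rintro a (ha | ⟨i, rfl⟩) b (hb | ⟨j, rfl⟩) hab
    · apply key
      exact Finset.mem_union_left _ (Finset.mem_image.2 ⟨(a, b),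
        Finset.mem_product.2 ⟨ha, hb⟩, rfl⟩)
    · apply key
      rw [(htP j).2 a ha]
      exact Finset.mem_union_right _ (Finset.mem_union_left _ (Finset.mem_image_of_mem _ ha))
    · exact absurd (htn i) (by have := hF b hb; omega)
    · apply key
      rw [htQ i j (htm.lt_iff_lt.1 hab)]
      exact Finset.mem_union_right _ (Finset.mem_union_right _ (Finset.mem_singleton_self _))

end Pool.Agent.Q205.ThinExt
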